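import Mathlib
import Pool.Agent.K9h67.EV.Pad

/-!
# Composites with real abelian fields: the definition
-/

set_option autoImplicit false

namespace Pool.Agent.K9h67.EW

open NumberField Pool.Agent.K9h67.EV

/-- The extension `k` of `F` is generated over `F` by a real abelian field: `k = F · k₀` with a
totally real number field `k₀`, abelian over `ℚ`, in which all the primes of `S` split completely
(`TestField S k₀`). -/
def IsAbelianComposite (S : Finset ℕ) (F k : Type) [Field F] [Field k] [Algebra F k] : Prop :=
  ∃ (k₀ : Type) (_ : Field k₀) (_ : NumberField k₀) (j : k₀ →+* k), TestField S k₀ ∧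
    IsGalois ℚ k₀ ∧ (∀ σ τ : k₀ ≃ₐ[ℚ] k₀, σ * τ = τ * σ) ∧
    IntermediateField.adjoin F (Set.range j) = ⊤

end Pool.Agent.K9h67.EW
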