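import Mathlib
import Pool.Agent.H391R2.R1.TD3
import Pool.Agent.K9h67.EV.FldC
import Pool.Agent.K9h67.EV.Quad
import Pool.Agent.K9h67.EV.Abs

/-!
# Extensions with many characters of order `p` in the class of the test fields
-/

set_option autoImplicit false
set_option linter.unusedSectionVars false

namespace Pool.Agent.K9h67.EW

open NumberField Polynomial Pool.Agent.K9h67.EV

/-- Galois extensions with a real embedding and embeddings in `ℚ_r` are test fields -/
lemma testField_of_embeddings {E : Type} [Field E] [NumberField E] [IsGalois ℚ E] {S : Finset ℕ}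
    (i : E →+* ℝ) (h : ∀ r ∈ S, ∀ _ : Fact r.Prime, Nonempty (E →+* ℚ_[r])) : TestField S E := by
  constructor
  · constructor
    intro v
    rw [InfinitePlace.isReal_iff, ComplexEmbedding.isReal_iff]
    ext x
    have h1 := ((inferInstance : Normal ℚ E).splits x).map i
    have h3 : (((minpoly ℚ x).map (algebraMap ℚ E)).map i).map (algebraMap ℝ ℂ)
        = (minpoly ℚ x).map (algebraMap ℚ ℂ) := by
      rw [Polynomial.map_map, Polynomial.map_map]
      congr 1
      exact RingHom.ext_rat _ _
    have hne : (minpoly ℚ x).map (algebraMap ℚ ℂ) ≠ 0 :=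
      Polynomial.map_ne_zero (minpoly.ne_zero (Algebra.IsIntegral.isIntegral x))
    have h4 : v.embedding x ∈ ((minpoly ℚ x).map (algebraMap ℚ ℂ)).roots := by
      rw [mem_roots hne, IsRoot.def, eval_map_algebraMap]
      have h5 := aeval_algHom_apply (v.embedding.toRatAlgHom) x (minpoly ℚ x)
      rw [minpoly.aeval, map_zero] at h5
      exact h5
    rw [← h3, h1.roots_map (algebraMap ℝ ℂ)] at h4
    obtain ⟨a, -, ha⟩ := Multiset.mem_map.1 h4
    rw [ComplexEmbedding.conjugate_coe_eq, ← ha]
    exact Complex.conj_ofReal a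
  · intro r hr hp x
    obtain ⟨j⟩ := h r hr hp
    have h1 := ((inferInstance : Normal ℚ E).splits x).map j
    rw [Polynomial.map_map] at h1
    have h2 : j.comp (algebraMap ℚ E) = algebraMap ℚ ℚ_[r] := RingHom.ext_rat _ _
    rwa [h2] at h1

/-- test fields with many characters of order `p` -/
theorem exists_elem (S : Finset ℕ) (p : ℕ) [Fact p.Prime] (M : ℕ) :
    ∃ (E : Type) (_ : Field E) (_ : NumberField E) (_ : IsGalois ℚ E), TestField S E ∧
      ∃ π : (E ≃ₐ[ℚ] E) →* Multiplicative (Fin M → ZMod p), Function.Surjective π := by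
  classical
  have hV : ∀ v : {r : ℕ // r ∈ S ∧ r.Prime}, Fact (v.1.Prime) := fun v => ⟨v.2.2⟩
  have hfin : Finite {r : ℕ // r ∈ S ∧ r.Prime} :=
    (S.finite_toSet.subset (fun r (hr : r ∈ S ∧ r.Prime) => hr.1)).to_subtype
  have hfinV : Fintype {r : ℕ // r ∈ S ∧ r.Prime} := Fintype.ofFinite _
  obtain ⟨E, fE, alg, fd, gal, i, j, ε, hε⟩ :=
    Pool.Agent.H391R2.R1.exists_split_field (Multiplicative (Fin M → ZMod p))
      (V := {r : ℕ // r ∈ S ∧ r.Prime}) (fun v => v.1)
  have h0 : CharZero E := charZero_of_injective_algebraMap (algebraMap ℚ E).injective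
  have halg : alg = DivisionRing.toRatAlgebra := Subsingleton.elim _ _
  subst halg
  have hNF : NumberField E := ⟨⟩
  refine ⟨E, fE, hNF, gal, testField_of_embeddings i fun r hr hp => ⟨j ⟨r, hr, hp.out⟩⟩, ?_⟩
  let π : (E ≃ₐ[ℚ] E) →* Multiplicative (Fin M → ZMod p) :=
    MonoidHom.mk' (fun g => Multiplicative.ofAdd fun a =>
      (ε (Multiplicative.ofAdd (Pi.single a 1)) g).toAdd a) (fun g g' => by
        apply Multiplicative.toAdd.injective
        funext a
        rw [toAdd_mul]
        change (ε (Multiplicative.ofAdd (Pi.single a 1)) (g * g')).toAdd a = _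
        rw [map_mul, toAdd_mul]
        rfl)
  refine ⟨π, fun y => ?_⟩
  choose ρ hρ using hε
  have h1 : ∀ a, π (ρ (Multiplicative.ofAdd (Pi.single a 1)))
      = Multiplicative.ofAdd (Pi.single a 1) := by
    intro a
    apply Multiplicative.toAdd.injective
    funext b
    change (ε (Multiplicative.ofAdd (Pi.single b 1)) (ρ (Multiplicative.ofAdd
      (Pi.single a 1)))).toAdd b = (Pi.single a 1 : Fin M → ZMod p) b
    by_cases hab : b = a
    · subst hab
      rw [(hρ _ _).1 rfl]
      rfl
    · rw [(hρ _ _).2 (fun h => ?_), Pi.single_eq_of_ne hab]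
      · rfl
      · have h2 := congrArg Multiplicative.toAdd h
        have h3 : (Pi.single b (1 : ZMod p) : Fin M → ZMod p) b
            = (Pi.single a (1 : ZMod p) : Fin M → ZMod p) b := congrFun h2 b
        rw [Pi.single_eq_same, Pi.single_eq_of_ne hab] at h3
        exact one_ne_zero h3
  have h2 : y = ∏ a, (π (ρ (Multiplicative.ofAdd (Pi.single a 1)))) ^ (y.toAdd a).val := by
    apply Multiplicative.toAdd.injective
    funext b
    rw [toAdd_prod, Finset.sum_apply, Finset.sum_eq_single b]
    · rw [h1, toAdd_pow, Pi.smul_apply]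
      change _ = (y.toAdd b).val • (Pi.single b 1 : Fin M → ZMod p) b
      rw [Pi.single_eq_same, nsmul_eq_mul, mul_one, ZMod.natCast_zmod_val]
    · intro a _ hab
      rw [h1, toAdd_pow, Pi.smul_apply]
      change (y.toAdd a).val • (Pi.single a 1 : Fin M → ZMod p) b = 0
      rw [Pi.single_eq_of_ne hab.symm, smul_zero]
    · intro h
      exact absurd (Finset.mem_univ _) h
  rw [h2]
  exact (π.range).prod_mem fun a _ => π.range.pow_mem ⟨_, rfl⟩ _

/-- two independent characters of order `p` on the subgroup of a test field -/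
theorem exists_map {S : Finset ℕ} (p : ℕ) [Fact p.Prime] (k : Type) [Field k] [NumberField k]
    (hk : TestField S k) : ∃ (N : Type) (_ : Field N) (_ : NumberField N) (_ : IsGalois ℚ N)
      (V : Subgroup (N ≃ₐ[ℚ] N)) (f : (N ≃ₐ[ℚ] N) →* Multiplicative (ZMod p × ZMod p)),
      TestField S N ∧ Nonempty (k ≃+* IntermediateField.fixedField V) ∧
      V.index = Module.finrank ℚ k ∧ ∀ y, ∃ v ∈ V, f v = y := by
  classical
  obtain ⟨E, _, _, _, hE, π, hπ⟩ := exists_elem S p (Module.finrank ℚ k + 2)
  obtain ⟨N, _, _, _, hN, ⟨i⟩, ⟨i'⟩⟩ := exists_normal k E hk hE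
  obtain ⟨V, hV, hVi⟩ := exists_subgroup i
  let := i'.toRingHom.toAlgebra
  have htow : IsScalarTower ℚ E N := IsScalarTower.of_algebraMap_eq' i'.comp_algebraMap.symm
  let π' : (N ≃ₐ[ℚ] N) →* Multiplicative (Fin (Module.finrank ℚ k + 2) → ZMod p) :=
    π.comp (res E N)
  have hπ' : Function.Surjective π' := hπ.comp res_surj
  have hp : 1 < p := (Fact.out : p.Prime).one_lt
  -- the image of `V`
  let W : Submodule (ZMod p) (Fin (Module.finrank ℚ k + 2) → ZMod p) :=
    AddSubgroup.toZModSubmodule p (Subgroup.toAddSubgroup' (V.map π'))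
  have hW : ∀ x, x ∈ W ↔ Multiplicative.ofAdd x ∈ V.map π' := fun x => Iff.rfl
  have hcard : Nat.card W * (V.map π').index = p ^ (Module.finrank ℚ k + 2) := by
    have h1 := Subgroup.card_mul_index (V.map π')
    have h2 : Nat.card (Multiplicative (Fin (Module.finrank ℚ k + 2) → ZMod p))
        = p ^ (Module.finrank ℚ k + 2) := by
      rw [Nat.card_eq_fintype_card, Fintype.card_multiplicative, Fintype.card_fun, ZMod.card,
        Fintype.card_fin]
    rw [h2] at h1
    exact h1
  have hidx : (V.map π').index ≤ Module.finrank ℚ k := by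
    refine (Nat.le_of_dvd ?_ (Subgroup.index_map_dvd V hπ')).trans hVi.le
    rw [hVi]
    exact Module.finrank_pos
  have hlt : p < Nat.card W := by
    by_contra hle
    push Not at hle
    have h1 : p ^ (Module.finrank ℚ k + 2) ≤ p * Module.finrank ℚ k := by
      rw [← hcard]
      exact Nat.mul_le_mul hle hidx
    have h2 : Module.finrank ℚ k < p ^ (Module.finrank ℚ k + 1) :=
      (Nat.lt_succ_self _).trans (Nat.lt_pow_self hp)
    have h3 : p * Module.finrank ℚ k < p * p ^ (Module.finrank ℚ k + 1) :=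
      Nat.mul_lt_mul_of_pos_left h2 (by omega)
    rw [pow_succ, mul_comm] at h1
    omega
  have hfr : 1 < Module.finrank (ZMod p) W := by
    by_contra hle
    push Not at hle
    have h1 : Nat.card W = p ^ Module.finrank (ZMod p) W := by
      have h2 := Module.natCard_eq_pow_finrank (K := ZMod p) (V := W)
      rw [Nat.card_zmod] at h2
      exact h2
    have h2 : p ^ Module.finrank (ZMod p) W ≤ p ^ 1 := Nat.pow_le_pow_right (by omega) hle
    rw [h1] at hlt
    rw [pow_one] at h2
    omega
  obtain ⟨w₁, w₂, hw⟩ : ∃ w₁ w₂ : W, LinearIndependent (ZMod p) ![w₁, w₂] := by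
    obtain ⟨f, hf⟩ := exists_linearIndependent_of_le_finrank
      (show 2 ≤ Module.finrank (ZMod p) W from hfr)
    refine ⟨f 0, f 1, ?_⟩
    convert hf using 1
    funext a
    fin_cases a <;> rfl
  let ι : (ZMod p × ZMod p) →ₗ[ZMod p] (Fin (Module.finrank ℚ k + 2) → ZMod p) :=
    (LinearMap.fst _ _ _).smulRight (w₁ : Fin (Module.finrank ℚ k + 2) → ZMod p)
      + (LinearMap.snd _ _ _).smulRight (w₂ : Fin (Module.finrank ℚ k + 2) → ZMod p)
  have hι : ∀ y, ι y = y.1 • (w₁ : Fin (Module.finrank ℚ k + 2) → ZMod p)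
      + y.2 • (w₂ : Fin (Module.finrank ℚ k + 2) → ZMod p) := fun y => rfl
  have hker : LinearMap.ker ι = ⊥ := by
    rw [LinearMap.ker_eq_bot']
    intro y hy
    rw [hι] at hy
    have h1 : y.1 • w₁ + y.2 • w₂ = 0 := Subtype.ext hy
    obtain ⟨h2, h3⟩ := LinearIndependent.pair_iff.mp hw _ _ h1
    exact Prod.ext h2 h3
  obtain ⟨L, hL⟩ := LinearMap.exists_leftInverse_of_injective ι hker
  let f : (N ≃ₐ[ℚ] N) →* Multiplicative (ZMod p × ZMod p) :=
    (AddMonoidHom.toMultiplicative L.toAddMonoidHom).comp π'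
  refine ⟨N, inferInstance, inferInstance, inferInstance, V, f, hN, hV, hVi, fun y => ?_⟩
  have h1 : ι y.toAdd ∈ W := by
    rw [hι]
    exact W.add_mem (W.smul_mem _ w₁.2) (W.smul_mem _ w₂.2)
  rw [hW] at h1
  obtain ⟨v, hv, hv'⟩ := h1
  refine ⟨v, hv, ?_⟩
  apply Multiplicative.toAdd.injective
  change L ((π' v).toAdd) = y.toAdd
  have h2 : (π' v).toAdd = ι y.toAdd := congrArg Multiplicative.toAdd hv'
  rw [h2]
  exact LinearMap.congr_fun hL y.toAdd

end Pool.Agent.K9h67.EW
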