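import Mathlib
import Pool.Agent.K9h41.LD.Rel
import Pool.Agent.K9h67.EW.Abs
import Pool.Agent.K9h67.EW.Ext

/-!
# The `p`-th power of the value of a field
-/

set_option autoImplicit false
set_option linter.unusedSectionVars false

open NumberField IntermediateField Pool.Agent.R389 Pool.Agent.K4H74.ST Pool.Agent.K4H74.SC
  Pool.Agent.K9h41.DC Pool.Agent.K9h41.LD

namespace Pool.Agent.K9h67.EW

section grp

variable {G : Type} [Group G] [Finite G]

lemma card_inf_ker {B : Type} [Group B] [Finite B] (V : Subgroup G) (ψ : G →* B)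
    (hψ : ∀ b, ∃ v ∈ V, ψ v = b) :
    Nat.card V = Nat.card B * Nat.card (V ⊓ ψ.ker : Subgroup G) := by
  let f : V →* B := ψ.comp V.subtype
  have hf : Function.Surjective f := fun b => by
    obtain ⟨v, hv, h⟩ := hψ b
    exact ⟨⟨v, hv⟩, h⟩
  have h1 := Subgroup.card_mul_index f.ker
  have h2 : f.ker.index = Nat.card B := index_ker' hf
  have h3 : Nat.card f.ker = Nat.card (V ⊓ ψ.ker : Subgroup G) := by
    refine Nat.card_congr ⟨fun x => ⟨x.1.1, x.1.2, x.2⟩, fun x => ⟨⟨x.1, x.2.1⟩, x.2.2⟩,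
      fun x => rfl, fun x => rfl⟩
  rw [← h1, h2, h3, mul_comm]

/-- the permutation character of the kernel of a character of `V` -/
lemma ind_inf_ker {B : Type} [CommGroup B] [Finite B] (V : Subgroup G) (ψ : G →* B)
    (hψ : ∀ b, ∃ v ∈ V, ψ v = b) (g : G) [Decidable (ψ g = 1)] :
    ind (V ⊓ ψ.ker) (fun _ => (1 : ℂ)) g
      = if ψ g = 1 then Nat.card B * ind V (fun _ => (1 : ℂ)) g else 0 := by
  classical
  have : Fintype G := Fintype.ofFinite _
  have hB : (Nat.card B : ℂ) ≠ 0 := by exact_mod_cast Nat.card_pos.ne'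
  have hU : (Nat.card (V ⊓ ψ.ker : Subgroup G) : ℂ) ≠ 0 := by exact_mod_cast Nat.card_pos.ne'
  have hc : (Nat.card V : ℂ) = Nat.card B * Nat.card (V ⊓ ψ.ker : Subgroup G) := by
    exact_mod_cast card_inf_ker V ψ hψ
  have h1 : ∀ x : G, ψ (x⁻¹ * g * x) = ψ g := by
    intro x
    rw [map_mul, map_mul, map_inv, mul_comm (ψ x)⁻¹, inv_mul_cancel_right]
  rw [ind_eq, ind_eq]
  split_ifs with hg
  · have h2 : ∀ x : G, ext (V ⊓ ψ.ker) (fun _ => (1 : ℂ)) (x⁻¹ * g * x)
        = ext V (fun _ => (1 : ℂ)) (x⁻¹ * g * x) := by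
      intro x
      by_cases h : x⁻¹ * g * x ∈ V
      · have h' : x⁻¹ * g * x ∈ V ⊓ ψ.ker := ⟨h, (h1 x).trans hg⟩
        rw [ext_mem _ _ h, ext_mem _ _ h']
      · have h' : x⁻¹ * g * x ∉ V ⊓ ψ.ker := fun h3 => h h3.1
        rw [ext_not _ _ h, ext_not _ _ h']
    rw [Finset.sum_congr rfl (fun x _ => h2 x), hc]
    field_simp
  · have h2 : ∀ x : G, ext (V ⊓ ψ.ker) (fun _ => (1 : ℂ)) (x⁻¹ * g * x) = 0 := by
      intro x
      refine ext_not _ _ fun h3 => hg ?_
      rw [← h1 x]
      exact h3.2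
    rw [Finset.sum_congr rfl (fun x _ => h2 x), Finset.sum_const_zero, mul_zero]

/-- the relation for the quotient `(ℤ/p)²` -/
lemma plane_rel {p : ℕ} [Fact p.Prime] (V : Subgroup G)
    (f : G →* Multiplicative (ZMod p × ZMod p)) (hf : ∀ y, ∃ v ∈ V, f v = y) (g : G) :
    (p : ℂ) * ind V (fun _ => (1 : ℂ)) g
      = ∑ o : Option (ZMod p), ind (V ⊓ (cmp f (func p o)).ker) (fun _ => (1 : ℂ)) g
        - ind (V ⊓ f.ker) (fun _ => (1 : ℂ)) g := by
  classical
  have h1 : ∀ o : Option (ZMod p), ∀ b, ∃ v ∈ V, cmp f (func p o) v = b := by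
    intro o b
    obtain ⟨y, hy⟩ := func_surj p o b.toAdd
    obtain ⟨v, hv, hv'⟩ := hf (Multiplicative.ofAdd y)
    refine ⟨v, hv, ?_⟩
    apply Multiplicative.toAdd.injective
    change func p o ((f v).toAdd) = b.toAdd
    rw [hv']
    exact hy
  have h2 := count (p := p) (f g).toAdd
  have h3 : ∀ o : Option (ZMod p), cmp f (func p o) g = 1 ↔ func p o (f g).toAdd = 0 :=
    fun o => Iff.rfl
  have h4 : f g = 1 ↔ (f g).toAdd = 0 := Iff.rfl
  have c1 : Nat.card (Multiplicative (ZMod p)) = p := by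
    rw [Nat.card_eq_fintype_card, Fintype.card_multiplicative, ZMod.card]
  have c2 : Nat.card (Multiplicative (ZMod p × ZMod p)) = p ^ 2 := by
    rw [Nat.card_eq_fintype_card, Fintype.card_multiplicative, Fintype.card_prod, ZMod.card, pow_two]
  have h5 : ∀ o : Option (ZMod p), ind (V ⊓ (cmp f (func p o)).ker) (fun _ => (1 : ℂ)) g
      = (if func p o (f g).toAdd = 0 then (p : ℂ) else 0) * ind V (fun _ => (1 : ℂ)) g := by
    intro o
    rw [ind_inf_ker V _ (h1 o), c1]
    by_cases h : func p o (f g).toAdd = 0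
    · rw [if_pos h, if_pos ((h3 o).mpr h)]
    · rw [if_neg h, if_neg (fun h' => h ((h3 o).mp h')), zero_mul]
  have h6 : ind (V ⊓ f.ker) (fun _ => (1 : ℂ)) g
      = (if (f g).toAdd = 0 then (p : ℂ) ^ 2 else 0) * ind V (fun _ => (1 : ℂ)) g := by
    rw [ind_inf_ker V _ hf, c2]
    by_cases h : (f g).toAdd = 0
    · rw [if_pos h, if_pos (h4.mpr h)]
      push_cast
      rfl
    · rw [if_neg h, if_neg (fun h' => h (h4.mp h')), zero_mul]
  rw [Finset.sum_congr rfl (fun o _ => h5 o), h6, ← Finset.sum_mul, ← sub_mul, h2]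

lemma index_inf_ker {B : Type} [CommGroup B] [Finite B] (V : Subgroup G) (ψ : G →* B)
    (hψ : ∀ b, ∃ v ∈ V, ψ v = b) : (V ⊓ ψ.ker : Subgroup G).index = Nat.card B * V.index := by
  have h1 := Subgroup.card_mul_index V
  have h2 := Subgroup.card_mul_index (V ⊓ ψ.ker)
  rw [card_inf_ker V ψ hψ, ← h2] at h1
  have h3 : Nat.card (V ⊓ ψ.ker : Subgroup G) * (V ⊓ ψ.ker : Subgroup G).index
      = Nat.card (V ⊓ ψ.ker : Subgroup G) * (Nat.card B * V.index) := by
    rw [← h1]
    ring
  exact Nat.eq_of_mul_eq_mul_left Nat.card_pos h3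

end grp

section fn

open Pool.Agent.K9h67.EV

variable {S : Finset ℕ} {A : Type} [CommGroup A] {F : ArtinFn S A}

lemma HV.zero {K : Type} [Field K] [NumberField K] [IsGalois ℚ K] :
    HV F (0 : (K ≃ₐ[ℚ] K) → ℂ) 1 := by
  refine ⟨0, fun g => ?_, ?_⟩
  · change _ = (0 : ℂ)
    refine (finsum_congr (g := fun _ : Subgroup (K ≃ₐ[ℚ] K) => (0 : ℂ)) fun U => ?_).trans
      finsum_zero
    rw [Pi.zero_apply, Int.cast_zero, zero_mul]
  · refine (finprod_congr (g := fun _ : Subgroup (K ≃ₐ[ℚ] K) => (1 : A)) fun U => ?_).trans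
      finprod_one
    rw [Pi.zero_apply, zpow_zero]

lemma HV.nsmul {K : Type} [Field K] [NumberField K] [IsGalois ℚ K] {f : (K ≃ₐ[ℚ] K) → ℂ} {a : A}
    (h : HV F f a) (n : ℕ) : HV F (n • f) (a ^ n) := by
  induction n with
  | zero =>
    rw [zero_smul, pow_zero]
    exact HV.zero
  | succ n ih =>
    rw [succ_nsmul, pow_succ]
    exact ih.add h

lemma HV.sum {K : Type} [Field K] [NumberField K] [IsGalois ℚ K] {I : Type} (s : Finset I)
    {f : I → (K ≃ₐ[ℚ] K) → ℂ} {a : I → A} (h : ∀ i ∈ s, HV F (f i) (a i)) :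
    HV F (∑ i ∈ s, f i) (∏ i ∈ s, a i) := by
  classical
  induction s using Finset.induction_on with
  | empty =>
    rw [Finset.sum_empty, Finset.prod_empty]
    exact HV.zero
  | insert x s hx ih =>
    rw [Finset.sum_insert hx, Finset.prod_insert hx]
    exact (h x (Finset.mem_insert_self _ _)).add
      (ih fun i hi => h i (Finset.mem_insert_of_mem hi))

/-- **the `p`-th power of the value of a field** is a product of values of fields of larger degree -/
theorem step_p {p : ℕ} (hp : p.Prime) (k : Type) [Field k] [NumberField k] (hk : TestField S k) :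
    F.v k ^ p ∈ Subgroup.closure {a : A | ∃ (k' : Type) (_ : Field k') (_ : NumberField k'),
      TestField S k' ∧ p * Module.finrank ℚ k ∣ Module.finrank ℚ k' ∧ F.v k' = a} := by
  classical
  have : Fact p.Prime := ⟨hp⟩
  obtain ⟨N, _, _, _, V, f, hN, ⟨e⟩, hV, hf⟩ := exists_map p k hk
  have h1 : ∀ o : Option (ZMod p), ∀ b, ∃ v ∈ V, cmp f (func p o) v = b := by
    intro o b
    obtain ⟨y, hy⟩ := func_surj p o b.toAdd
    obtain ⟨v, hv, hv'⟩ := hf (Multiplicative.ofAdd y)
    refine ⟨v, hv, ?_⟩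
    apply Multiplicative.toAdd.injective
    change func p o ((f v).toAdd) = b.toAdd
    rw [hv']
    exact hy
  have c1 : Nat.card (Multiplicative (ZMod p)) = p := by
    rw [Nat.card_eq_fintype_card, Fintype.card_multiplicative, ZMod.card]
  have c2 : Nat.card (Multiplicative (ZMod p × ZMod p)) = p ^ 2 := by
    rw [Nat.card_eq_fintype_card, Fintype.card_multiplicative, Fintype.card_prod, ZMod.card, pow_two]
  have h2 := (HV.ind (F := F) V).nsmul p
  have h3 := (HV.sum (F := F) Finset.univ (fun (o : Option (ZMod p)) _ =>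
    HV.ind (F := F) (V ⊓ (cmp f (func p o)).ker))).sub (HV.ind (V ⊓ f.ker))
  have h4 : p • ind V (fun _ => (1 : ℂ))
      = ∑ o : Option (ZMod p), ind (V ⊓ (cmp f (func p o)).ker) (fun _ => (1 : ℂ))
        - ind (V ⊓ f.ker) (fun _ => (1 : ℂ)) := by
    funext g
    rw [Pi.smul_apply, nsmul_eq_mul, plane_rel V f hf g, Pi.sub_apply, Finset.sum_apply]
  rw [h4] at h2
  have h5 := h2.unique hN h3
  have h6 : F.v k = F.v (fixedField V) := F.iso _ _ e
  rw [h6, h5]
  refine Subgroup.mul_mem _ (Subgroup.prod_mem _ fun o _ => ?_) (Subgroup.inv_mem _ ?_)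
  · refine Subgroup.subset_closure ⟨_, inferInstance, inferInstance,
      hN.sub (fixedField (V ⊓ (cmp f (func p o)).ker)).val, ?_, rfl⟩
    rw [finrank_fixed, index_inf_ker V _ (h1 o), c1, hV]
  · refine Subgroup.subset_closure ⟨_, inferInstance, inferInstance,
      hN.sub (fixedField (V ⊓ f.ker)).val, ?_, rfl⟩
    rw [finrank_fixed, index_inf_ker V _ hf, c2, hV]
    exact ⟨p, by ring⟩

/-- from the degrees divisible by `D * N` to the degrees divisible by `D` -/
theorem kill (N : ℕ) : N ≠ 0 → ∀ D M : ℕ,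
    (∀ (k : Type) [Field k] [NumberField k], TestField S k → D * N ∣ Module.finrank ℚ k →
      F.v k ^ M = 1) →
    ∀ (k : Type) [Field k] [NumberField k], TestField S k → D ∣ Module.finrank ℚ k →
      F.v k ^ (M * N) = 1 := by
  induction N using Nat.strong_induction_on with
  | _ N ih =>
    intro hN D M h k _ _ hk hd
    rcases eq_or_ne N 1 with rfl | h1
    · rw [mul_one]
      exact h k hk (by rwa [mul_one])
    · obtain ⟨N', hN'⟩ := Nat.minFac_dvd N
      have hp : N.minFac.Prime := Nat.minFac_prime h1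
      have hN'0 : N' ≠ 0 := by
        rintro rfl
        rw [mul_zero] at hN'
        exact hN hN'
      have hlt : N' < N := by
        have h2 : N' < N.minFac * N' := by
          have := hp.one_lt
          nlinarith [Nat.pos_of_ne_zero hN'0]
        omega
      have h2 := ih N' hlt hN'0 (D * N.minFac) M (fun k' _ _ hk' hd' => h k' hk' (by
        rw [hN', ← mul_assoc]
        exact hd'))
      have h3 := step_p (F := F) hp k hk
      have h4 : Subgroup.closure {a : A | ∃ (k' : Type) (_ : Field k') (_ : NumberField k'),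
          TestField S k' ∧ N.minFac * Module.finrank ℚ k ∣ Module.finrank ℚ k' ∧ F.v k' = a}
          ≤ (powMonoidHom (M * N')).ker := by
        rw [Subgroup.closure_le]
        rintro a ⟨k', _, _, hk', hd', rfl⟩
        refine h2 k' hk' (dvd_trans ?_ hd')
        rw [mul_comm N.minFac]
        exact Nat.mul_dvd_mul_right hd _
      have h5 : (F.v k ^ N.minFac) ^ (M * N') = 1 := h4 h3
      rw [← pow_mul] at h5
      rw [show M * N = N.minFac * (M * N') by
        conv_lhs => rw [hN']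
        ring]
      exact h5

/-- **a value of one for enough degrees** -/
theorem all_one (h : ∀ l : ℕ, l.Prime → ∃ N : ℕ, ¬ l ∣ N ∧
      ∀ (k : Type) [Field k] [NumberField k], TestField S k → N ∣ Module.finrank ℚ k →
        F.v k = 1) (k : Type) [Field k] [NumberField k] (hk : TestField S k) : F.v k = 1 := by
  have h1 : ∀ l : ℕ, l.Prime → ∃ N : ℕ, ¬ l ∣ N ∧ F.v k ^ N = 1 := by
    intro l hl
    obtain ⟨N, hN, h2⟩ := h l hl
    have hN0 : N ≠ 0 := by
      rintro rfl
      exact hN (dvd_zero l)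
    refine ⟨N, hN, ?_⟩
    have h3 := kill (F := F) N hN0 1 1 (fun k' _ _ hk' hd' => by
      rw [pow_one]
      exact h2 k' hk' (by rwa [one_mul] at hd')) k hk (one_dvd _)
    rwa [one_mul] at h3
  by_contra hne
  have h2 : orderOf (F.v k) ≠ 1 := fun h3 => hne (orderOf_eq_one_iff.mp h3)
  obtain ⟨N, hN, h3⟩ := h1 _ (Nat.minFac_prime h2)
  exact hN ((Nat.minFac_dvd _).trans (orderOf_dvd_of_pow_eq_one h3))

end fn

end Pool.Agent.K9h67.EW
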