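import Mathlib
import Pool.Agent.K9h67.EV.Iso
import Pool.Agent.K9h67.EV.Pad
import Pool.Agent.K9h76.LB.Comp
import Pool.Agent.K9h86.RT.Ls

/-!
# The composites of a number field with the fields of the class
-/

set_option autoImplicit false
set_option linter.unusedSectionVars false

namespace Pool.Agent.K9h67.EW

open NumberField IntermediateField IsDedekindDomain Polynomial Pool.Agent.K9h67.EV
  Pool.Agent.K9h86.RT Pool.Agent.R389 Pool.Agent.K4H74.ST Pool.Agent.K4H74.SC

/-- `k` is the composite of `F` and `k₀`, of the same degree over `F` as `k₀` over `ℚ` -/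
def IsComp (F k₀ k : Type) [Field F] [Field k₀] [NumberField k₀] [Field k] [Algebra F k] : Prop :=
  ∃ j : k₀ →+* k, Module.finrank ℚ k₀ = Module.finrank F k ∧
    IntermediateField.adjoin F (Set.range j) = ⊤

section one

variable {F k₀ k : Type} [Field F] [NumberField F] [Field k₀] [NumberField k₀] [Field k]
  [NumberField k] [Algebra F k]

lemma gen_comp {α : k₀} (hα : ℚ⟮α⟯ = ⊤) (j : k₀ →+* k)
    (hj : IntermediateField.adjoin F (Set.range j) = ⊤) : F⟮j α⟯ = ⊤ := by
  rw [eq_top_iff, ← hj, IntermediateField.adjoin_le_iff]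
  rintro _ ⟨x, rfl⟩
  let j' : k₀ →ₐ[ℚ] k := j.toRatAlgHom
  have h1 : (⊤ : IntermediateField ℚ k₀).map j' = ℚ⟮j α⟯ := by
    rw [← hα, IntermediateField.adjoin_map, Set.image_singleton]
    rfl
  have h2 : j x ∈ ℚ⟮j α⟯ := by
    rw [← h1]
    exact ⟨x, IntermediateField.mem_top, rfl⟩
  have h3 : ℚ⟮j α⟯ ≤ (F⟮j α⟯).restrictScalars ℚ := by
    rw [IntermediateField.adjoin_le_iff, Set.singleton_subset_iff]
    exact mem_adjoin_simple_self F (j α)
  exact h3 h2

lemma minpoly_comp {α : k₀} (hα : ℚ⟮α⟯ = ⊤) (j : k₀ →+* k)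
    (hj : IntermediateField.adjoin F (Set.range j) = ⊤)
    (hd : Module.finrank ℚ k₀ = Module.finrank F k) :
    minpoly F (j α) = (minpoly ℚ α).map (algebraMap ℚ F) := by
  have hi : IsIntegral ℚ α := Algebra.IsIntegral.isIntegral α
  have : FiniteDimensional F k := Module.Finite.of_restrictScalars_finite ℚ F k
  have hi' : IsIntegral F (j α) := Algebra.IsIntegral.isIntegral _
  have h1 : (minpoly ℚ α).natDegree = Module.finrank ℚ k₀ := by
    rw [← IntermediateField.adjoin.finrank hi, hα, IntermediateField.finrank_top']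
  have h2 : (minpoly F (j α)).natDegree = Module.finrank F k := by
    rw [← IntermediateField.adjoin.finrank hi', gen_comp hα j hj, IntermediateField.finrank_top']
  have h3 : minpoly F (j α) ∣ (minpoly ℚ α).map (algebraMap ℚ F) := by
    apply minpoly.dvd
    rw [aeval_map_algebraMap]
    have h4 := Polynomial.aeval_algHom_apply (j.toRatAlgHom) α (minpoly ℚ α)
    rw [minpoly.aeval, map_zero] at h4
    exact h4
  exact (eq_of_monic_of_dvd_of_natDegree_le (minpoly.monic hi') ((minpoly.monic hi).map _) h3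
    (by rw [natDegree_map, h1, h2, hd])).symm

lemma IsComp.congr {k₀' : Type} [Field k₀'] [NumberField k₀'] (e : k₀ ≃+* k₀')
    (h : IsComp F k₀ k) : IsComp F k₀' k := by
  obtain ⟨j, hd, hj⟩ := h
  refine ⟨j.comp (e.symm : k₀' →+* k₀), ?_, ?_⟩
  · rw [← hd]
    exact (LinearEquiv.finrank_eq (e.toRatAlgEquiv : k₀ ≃ₐ[ℚ] k₀').toLinearEquiv).symm
  · rw [← hj]
    congr 1
    ext x
    constructor
    · rintro ⟨y, rfl⟩
      exact ⟨e.symm y, rfl⟩
    · rintro ⟨y, rfl⟩
      exact ⟨e y, by simp⟩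

lemma isComp_rat : IsComp F ℚ F := by
  refine ⟨algebraMap ℚ F, ?_, ?_⟩
  · rw [Module.finrank_self, Module.finrank_self]
  · rw [eq_top_iff]
    intro x _
    exact (IntermediateField.adjoin F (Set.range (algebraMap ℚ F))).algebraMap_mem x

end one

section two

variable {F k₀ k k' : Type} [Field F] [NumberField F] [Field k₀] [NumberField k₀] [Field k]
  [NumberField k] [Algebra F k] [Field k'] [NumberField k'] [Algebra F k']

/-- the composite is unique -/
theorem comp_equiv (h : IsComp F k₀ k) (h' : IsComp F k₀ k') : Nonempty (k ≃ₐ[F] k') := by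
  obtain ⟨j, hd, hj⟩ := h
  obtain ⟨j', hd', hj'⟩ := h'
  obtain ⟨α, hα⟩ := Field.exists_primitive_element ℚ k₀
  have e1 := minpoly_comp hα j hj hd
  have e2 := minpoly_comp hα j' hj' hd'
  have : FiniteDimensional F k := Module.Finite.of_restrictScalars_finite ℚ F k
  have : FiniteDimensional F k' := Module.Finite.of_restrictScalars_finite ℚ F k'
  have hi : IsIntegral F (j α) := Algebra.IsIntegral.isIntegral _
  let e₀ : F⟮j α⟯ ≃ₐ[F] k :=
    (IntermediateField.equivOfEq (gen_comp hα j hj)).trans IntermediateField.topEquiv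
  let f : F⟮j α⟯ →ₐ[F] k' := (adjoin.powerBasis hi).lift (j' α) (by
    rw [adjoin.powerBasis_gen, minpoly_gen, e1, ← e2]
    exact minpoly.aeval F _)
  let g : k →ₐ[F] k' := f.comp e₀.symm.toAlgHom
  have hg : Function.Bijective g := by
    refine ⟨g.toRingHom.injective, ?_⟩
    exact (LinearMap.injective_iff_surjective_of_finrank_eq_finrank (f := g.toLinearMap)
      (hd.symm.trans hd')).mp g.toRingHom.injective
  exact ⟨AlgEquiv.ofBijective g hg⟩

lemma under_pr (e : k ≃ₐ[F] k') (v : HeightOneSpectrum (𝓞 k)) :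
    (pr (RingOfIntegers.mapRingEquiv e.toRingEquiv) v).asIdeal.under (𝓞 F)
      = v.asIdeal.under (𝓞 F) := by
  ext x
  rw [Ideal.mem_comap, Ideal.mem_comap]
  change (RingOfIntegers.mapRingEquiv e.toRingEquiv).symm (algebraMap (𝓞 F) (𝓞 k') x) ∈ v.asIdeal
    ↔ algebraMap (𝓞 F) (𝓞 k) x ∈ v.asIdeal
  have h1 : (RingOfIntegers.mapRingEquiv e.toRingEquiv).symm (algebraMap (𝓞 F) (𝓞 k') x)
      = algebraMap (𝓞 F) (𝓞 k) x := by
    apply RingOfIntegers.ext
    exact e.symm.commutes (x : F)
  rw [h1]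

lemma deg_pr (e : k ≃ₐ[F] k') (v : HeightOneSpectrum (𝓞 k)) :
    (pr (RingOfIntegers.mapRingEquiv e.toRingEquiv) v).asIdeal.inertiaDeg (𝓞 F)
      = v.asIdeal.inertiaDeg (𝓞 F) := by
  have h1 := norm_below (F := F) v
  have h2 := norm_below (F := F) (pr (RingOfIntegers.mapRingEquiv e.toRingEquiv) v)
  have h3 : belowP F (pr (RingOfIntegers.mapRingEquiv e.toRingEquiv) v) = belowP F v :=
    HeightOneSpectrum.ext (under_pr e v)
  rw [h3, absNorm_pr, ← h1] at h2
  refine Nat.pow_right_injective (a := Ideal.absNorm (belowP F v).asIdeal) ?_ h2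
  have := (belowP F v).isPrime
  have h4 : Ideal.absNorm (belowP F v).asIdeal ≠ 0 := by
    rw [Ne, Ideal.absNorm_eq_zero_iff]
    exact (belowP F v).ne_bot
  have h5 : Ideal.absNorm (belowP F v).asIdeal ≠ 1 := by
    rw [Ne, Ideal.absNorm_eq_one_iff]
    exact this.ne_top
  omega

/-- isomorphic extensions have the same L-functions -/
lemma exp_lg_iso {E : Type} [Field E] (M : MotiveOver F E) (e : k ≃ₐ[F] k') (ι : E →+* ℂ) {s : ℂ}
    (hs : 1 + (M.w : ℝ) / 2 < s.re) :
    Complex.exp (lg M ι k s) = Complex.exp (lg M ι k' s) := by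
  have h1 := hasProd_euler M ι (k := k) hs
  have h2 := hasProd_euler M ι (k := k') hs
  let e' : 𝓞 k ≃+* 𝓞 k' := RingOfIntegers.mapRingEquiv e.toRingEquiv
  rw [← (prE e').hasProd_iff] at h2
  have h3 : ((fun v => eulerFactor M ι k' v s) ∘ prE e') = fun v => eulerFactor M ι k v s := by
    funext v
    change eulerFactor M ι k' (pr e' v) s = _
    rw [eulerFactor, eulerFactor, under_pr, deg_pr, absNorm_pr]
  rw [h3] at h2
  exact h1.unique h2

end two

end Pool.Agent.K9h67.EW
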