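import Mathlib
import Pool.Agent.K9h67.EV.Chain
import Pool.Agent.K9h67.EW.QuadV

/-!
# Two subgroups of the same order which are 2-groups
-/

set_option autoImplicit false
set_option linter.unusedSectionVars false

open NumberField NumberField.InfinitePlace IntermediateField
  Pool.Agent.R389 Pool.Agent.K4H74.ST Pool.Agent.K4H74.SC Pool.Agent.K9h41.DC

namespace Pool.Agent.K9h67.EW

open Pool.Agent.K9h67.EV

variable {S : Finset ℕ} {A : Type} [CommGroup A] {F : ArtinFn S A}
variable {N : Type} [Field N] [NumberField N] [IsGalois ℚ N]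

lemma chain (hN : TestField S N) {j : ℕ} {u : A} (H : HJ F (j + 1) u) {t : ℕ} {r : ℕ} (i : ℕ) :
    ∀ P Q Q' : Subgroup (N ≃ₐ[ℚ] N), Q ≤ P → Q' ≤ P → Nat.card P = 2 ^ (r + i) →
      Nat.card Q = 2 ^ r → Nat.card Q' = 2 ^ r → Q.index = 2 ^ j * t →
      F.v (fixedField Q) = F.v (fixedField Q') := by
  induction i with
  | zero =>
    intro P Q Q' h h' hP hQ hQ' _
    rw [add_zero] at hP
    rw [eq_of_card h (by rw [hP, hQ]), eq_of_card h' (by rw [hP, hQ'])]
  | succ i ih =>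
    intro P Q Q' h h' hP hQ hQ' hi
    rcases Nat.eq_zero_or_pos i with rfl | hi0
    · refine quad_eq hN H h (relIndex_two h ?_) h' (relIndex_two h' ?_) hi
      · rw [hP, hQ, zero_add, pow_succ, mul_comm]
      · rw [hP, hQ', zero_add, pow_succ, mul_comm]
    · have hd : 2 ^ (r + i) ∣ Nat.card P := by
        rw [hP]
        exact pow_dvd_pow 2 (by omega)
      obtain ⟨M, hM1, hM2, hM3⟩ := exists_between h hQ (Nat.le_add_right r i) hd
      obtain ⟨M', hM1', hM2', hM3'⟩ := exists_between h' hQ' (Nat.le_add_right r i) hd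
      have e1 : M'.relIndex P = 2 := relIndex_two hM2' (by
        rw [hP, hM3', ← add_assoc, pow_succ, mul_comm])
      have e2 : M'.relIndex M ≤ 2 := by
        rw [← e1]
        exact Subgroup.relIndex_le_of_le_right hM2 (by rw [e1]; norm_num)
      -- the intersection
      have e3 : Nat.card (M' ⊓ M : Subgroup (N ≃ₐ[ℚ] N)) * M'.relIndex M = 2 ^ (r + i) := by
        have h1 := Subgroup.card_mul_index ((M' ⊓ M).subgroupOf M)
        rw [card_subgroupOf' inf_le_right, hM3] at h1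
        have h2 : ((M' ⊓ M).subgroupOf M).index = M'.relIndex M :=
          Subgroup.inf_relIndex_right M' M
        rwa [h2] at h1
      have e4 : 2 ^ r ∣ Nat.card (M' ⊓ M : Subgroup (N ≃ₐ[ℚ] N)) := by
        have e5 : Nat.card (M' ⊓ M : Subgroup (N ≃ₐ[ℚ] N)) ∣ 2 ^ (r + i) :=
          ⟨_, e3.symm⟩
        obtain ⟨w, -, hw⟩ := (Nat.dvd_prime_pow Nat.prime_two).mp e5
        rw [hw]
        apply pow_dvd_pow
        by_contra hlt
        push Not at hlt
        have e6 : 2 ^ w * 2 < 2 ^ (r + i) := by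
          rw [← pow_succ]
          exact Nat.pow_lt_pow_right (by norm_num) (by omega)
        have e7 : 2 ^ (r + i) ≤ 2 ^ w * 2 := by
          rw [← e3, hw]
          exact Nat.mul_le_mul_left _ e2
        omega
      obtain ⟨Q'', -, h'', hQ''⟩ := exists_between (Q := (⊥ : Subgroup (N ≃ₐ[ℚ] N)))
        (P := M' ⊓ M) bot_le (a := 0) (by simp) (Nat.zero_le r) e4
      rw [ih M Q Q'' hM1 (h''.trans inf_le_right) hM3 hQ hQ'' hi,
        ih M' Q' Q'' hM1' (h''.trans inf_le_left) hM3' hQ' hQ''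
          ((index_eq_of_card (hQ'.trans hQ.symm)).trans hi)]

/-- two 2-subgroups of the same order -/
theorem two_groups (hN : TestField S N) {j : ℕ} {u : A} (H : HJ F (j + 1) u) {t : ℕ}
    {Q Q' : Subgroup (N ≃ₐ[ℚ] N)}
    (hQ : IsPGroup 2 Q) (hQ' : IsPGroup 2 Q') (hc : Nat.card Q = Nat.card Q')
    (hi : Q.index = 2 ^ j * t) : F.v (fixedField Q) = F.v (fixedField Q') := by
  obtain ⟨P, hP⟩ := hQ.exists_le_sylow
  obtain ⟨P', hP'⟩ := hQ'.exists_le_sylow
  obtain ⟨g, hg⟩ := MulAction.exists_smul_eq (N ≃ₐ[ℚ] N) P' P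
  -- conjugate `Q'` into `P`
  let Q'' : Subgroup (N ≃ₐ[ℚ] N) := Q'.map (MulAut.conj g).toMonoidHom
  have m : ∀ z, z ∈ Q'' ↔ g⁻¹ * z * (g⁻¹)⁻¹ ∈ Q' := by
    intro z
    rw [inv_inv]
    constructor
    · rintro ⟨x, hx, rfl⟩
      have h1 : g⁻¹ * ((MulAut.conj g).toMonoidHom x) * g = x := by
        change g⁻¹ * (g * x * g⁻¹) * g = x
        group
      rw [h1]
      exact hx
    · intro h
      refine ⟨_, h, ?_⟩
      change g * (g⁻¹ * z * g) * g⁻¹ = z
      group
  have h1 : Q'' ≤ P := by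
    intro z hz
    rw [← hg, Sylow.coe_subgroup_smul, Subgroup.mem_pointwise_smul_iff_inv_smul_mem]
    have h2 : ((MulAut.conj g)⁻¹ • z : N ≃ₐ[ℚ] N) = g⁻¹ * z * g := by
      rw [MulAut.smul_def, MulAut.conj_inv_apply]
    rw [h2]
    have h3 := (m z).mp hz
    rw [inv_inv] at h3
    exact hP' h3
  have h2 : F.v (fixedField Q'') = F.v (fixedField Q') := by
    have h3 := HV.ind (F := F) Q''
    rw [ind_conj' m] at h3
    exact h3.unique hN (HV.ind Q')
  have hc' : Nat.card Q'' = Nat.card Q' := card_conj m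
  obtain ⟨r, hr⟩ := IsPGroup.iff_card.mp hQ
  obtain ⟨n, hn⟩ := IsPGroup.iff_card.mp P.isPGroup'
  have hrn : r ≤ n := by
    have h3 : Nat.card Q ≤ Nat.card P := Subgroup.card_le_of_le hP
    rw [hr, hn] at h3
    exact (Nat.pow_le_pow_iff_right (by norm_num)).mp h3
  obtain ⟨i, rfl⟩ := Nat.exists_eq_add_of_le hrn
  rw [← h2]
  exact chain hN H i P Q Q'' hP h1 hn hr (by rw [hc', ← hc, hr]) hi

end Pool.Agent.K9h67.EW
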