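import Mathlib
import Pool.Agent.K9h67.EW.Sol

/-!
# The abstract theorem for the fields of a class
-/

set_option autoImplicit false
set_option linter.unusedSectionVars false

open NumberField NumberField.InfinitePlace IntermediateField IsDedekindDomain Filter Topology
  Pool.Agent.R389 Pool.Agent.K4H74.ST Pool.Agent.K4H74.SC Pool.Agent.K9h41.DC

namespace Pool.Agent.K9h67.EW

open Pool.Agent.K9h67.EV

section abs

variable {S : Finset ℕ} {A : Type} [CommGroup A] {F : ArtinFn S A}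

/-- from `2 ^ (j + 1)` to `2 ^ j` -/
lemma step {j : ℕ} {u : A} (H : HJ F (j + 1) u) :
    ∃ w : A, w ^ 2 = u ∧ HJ F j w := by
  obtain ⟨k', _, _, hk', hd'⟩ := exists_deg S j
  have hw : F.v k' ^ 2 = u := by
    rw [v_sq H k' hk' (t := 1) (by rw [hd', mul_one]), pow_one]
  refine ⟨F.v k', hw, ?_⟩
  intro k _ _ hk hdvd
  obtain ⟨t, ht⟩ := hdvd
  rw [ht, Nat.mul_div_cancel_left _ (pow_pos two_pos j)]
  rcases Nat.even_or_odd' t with ⟨s, rfl | rfl⟩
  · have h1 : Module.finrank ℚ k = 2 ^ (j + 1) * s := by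
      rw [ht, pow_succ]
      ring
    rw [H k hk (by rw [h1]; exact dvd_mul_right _ _), h1,
      Nat.mul_div_cancel_left _ (pow_pos two_pos (j + 1)), pow_mul, hw]
  · obtain ⟨N, _, _, _, hN, ⟨i⟩, ⟨i'⟩⟩ := exists_normal k k' hk hk'
    obtain ⟨V₀, ⟨e₀⟩, hV₀⟩ := exists_subgroup i
    obtain ⟨V₀', ⟨e₀'⟩, hV₀'⟩ := exists_subgroup i'
    obtain ⟨K, _, _, _, hK, _, _, ⟨R⟩⟩ := exists_roots N hN
    have hi : (V₀.comap (res N K)).index = 2 ^ j * (2 * s + 1) := by rw [index_comap, hV₀, ht]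
    have hi' : (V₀'.comap (res N K)).index = 2 ^ j * 1 := by
      rw [index_comap, hV₀', hd', mul_one]
    have hj : 2 ^ j ∣ Nat.card (K ≃ₐ[ℚ] K) := by
      have h1 : (V₀'.comap (res N K)).index ∣ Nat.card (K ≃ₐ[ℚ] K) :=
        Subgroup.index_dvd_card _
      rw [hi', mul_one] at h1
      exact h1
    obtain ⟨w, q, h⟩ := sol (F := F) R hK H hj
    obtain ⟨n, hn, hn'⟩ := h _ (ker_le_comap V₀) (2 * s + 1) ⟨s, rfl⟩ hi
    obtain ⟨n', hm, hm'⟩ := h _ (ker_le_comap V₀') 1 odd_one hi'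
    have e1 : F.v k = w * u ^ n := by rw [← hn, v_comap, F.iso _ _ e₀]
    have e2 : F.v k' = w * u ^ n' := by rw [← hm, v_comap, F.iso _ _ e₀']
    have e3 : n = n' + s := by
      push_cast at hn' hm'
      omega
    rw [e1, e3, zpow_add, ← mul_assoc, ← e2, pow_succ, pow_mul, hw, zpow_natCast, mul_comm]

/-- **the abstract theorem** -/
theorem abs_main (a : ℕ) :
    ∀ u : A, HJ F a u → ∃ w : A, w ^ 2 ^ a = u ∧ HJ F 0 w := by
  induction a with
  | zero =>
    intro u h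
    exact ⟨u, by rw [pow_zero, pow_one], h⟩
  | succ a ih =>
    intro u h
    obtain ⟨w, hw, h'⟩ := step h
    obtain ⟨w', hw', h''⟩ := ih w h'
    refine ⟨w', ?_, h''⟩
    rw [pow_succ, pow_mul, hw', hw]

theorem abs_two (a : ℕ) (hF : ∀ (k : Type) [Field k] [NumberField k],
    TestField S k → 2 ^ a ∣ Module.finrank ℚ k → F.v k = 1) :
    F.v ℚ ^ 2 ^ a = 1 ∧ ∀ (k : Type) [Field k] [NumberField k], TestField S k →
      F.v k = F.v ℚ ^ Module.finrank ℚ k := by
  obtain ⟨w, hw, h⟩ := abs_main (F := F) a 1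
    (fun k _ _ hk hd => by rw [hF k hk hd, one_pow])
  have h0 : ∀ (k : Type) [Field k] [NumberField k], TestField S k →
      F.v k = w ^ Module.finrank ℚ k := by
    intro k _ _ hk
    have h1 := h k hk (by rw [pow_zero]; exact one_dvd _)
    rwa [pow_zero, Nat.div_one] at h1
  have h1 : F.v ℚ = w := by
    have h2 := h0 ℚ (testField_rat S)
    rwa [Module.finrank_self, pow_one] at h2
  rw [h1]
  exact ⟨hw, h0⟩

end abs

end Pool.Agent.K9h67.EW
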