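import Mathlib
import Pool.Agent.K9h67.EW.Cmp
import Pool.Agent.K9h67.EW.Fin
import Pool.Agent.K9h86.RT.As

/-!
# The classes of the L-functions over the extensions of `F`
-/

set_option autoImplicit false
set_option linter.unusedSectionVars false

open NumberField IntermediateField IsDedekindDomain Filter Topology Pool.Agent.R389
  Pool.Agent.K4H74.ST Pool.Agent.K4H74.SC Pool.Agent.K9h86.RT

namespace Pool.Agent.K9h67.EW

open Pool.Agent.K9h67.EV

/-- permutation characters and isomorphisms -/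
lemma ind_comap {G G' : Type} [Group G] [Finite G] [Group G'] [Finite G'] (φ : G' ≃* G)
    (V : Subgroup G) (g : G') : ind (V.comap φ.toMonoidHom) (fun _ => (1 : ℂ)) g
      = ind V (fun _ => (1 : ℂ)) (φ g) := by
  classical
  have : Fintype G := Fintype.ofFinite _
  have : Fintype G' := Fintype.ofFinite _
  rw [ind_eq, ind_eq]
  have h1 : Nat.card (V.comap φ.toMonoidHom) = Nat.card V :=
    Nat.card_congr (Equiv.subtypeEquiv φ.toEquiv (fun x => Iff.rfl))
  rw [h1, ← Equiv.sum_comp φ.toEquiv]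
  congr 1
  refine Finset.sum_congr rfl fun x _ => ?_
  have h2 : (φ.toEquiv x)⁻¹ * φ g * φ.toEquiv x = φ (x⁻¹ * g * x) := by
    rw [map_mul, map_mul, map_inv]
    rfl
  rw [h2]
  by_cases h : x⁻¹ * g * x ∈ V.comap φ.toMonoidHom
  · have h' : φ (x⁻¹ * g * x) ∈ V := h
    rw [ext_mem _ _ h, ext_mem _ _ h']
  · have h' : φ (x⁻¹ * g * x) ∉ V := h
    rw [ext_not _ _ h, ext_not _ _ h']

section sub

variable {F K K₀ : Type} [Field F] [NumberField F] [Field K₀] [NumberField K₀]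
  [IsGalois ℚ K₀] [Field K] [NumberField K] [Algebra F K] [IsGalois F K]

/-- the fields between `F` and the composite of `F` and `K₀` -/
theorem isComp_sub (j : K₀ →+* K) (φ : (K ≃ₐ[F] K) ≃* (K₀ ≃ₐ[ℚ] K₀))
    (hφ : ∀ g x, g (j x) = j (φ g x)) (U : Subgroup (K₀ ≃ₐ[ℚ] K₀)) :
    IsComp F (fixedField U) (fixedField (U.comap φ.toMonoidHom)) := by
  classical
  have hfin : FiniteDimensional F K := Module.Finite.of_restrictScalars_finite ℚ F K
  have hmem : ∀ x : fixedField U, j (x : K₀) ∈ fixedField (U.comap φ.toMonoidHom) := by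
    intro x g
    change (g : K ≃ₐ[F] K) (j x) = j x
    rw [hφ]
    congr 1
    exact x.2 ⟨φ g, g.2⟩
  let j' : fixedField U →+* fixedField (U.comap φ.toMonoidHom) :=
    (j.comp (fixedField U).val.toRingHom).codRestrict
      (fixedField (U.comap φ.toMonoidHom)).toSubfield hmem
  refine ⟨j', ?_, ?_⟩
  · rw [finrank_fixed, finrank_eq_fixingSubgroup_index, IntermediateField.fixingSubgroup_fixedField,
      Subgroup.index_comap_of_surjective U φ.surjective]
  · apply IntermediateField.lift_injective (fixedField (U.comap φ.toMonoidHom))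
    rw [IntermediateField.lift_top]
    refine le_antisymm (lift_le _) ?_
    have h1 : fixingSubgroup (lift (IntermediateField.adjoin F (Set.range j')))
        ≤ U.comap φ.toMonoidHom := by
      intro g hg
      rw [IntermediateField.mem_fixingSubgroup_iff] at hg
      have h2 : φ g ∈ (fixedField U).fixingSubgroup := by
        rw [IntermediateField.mem_fixingSubgroup_iff]
        intro x hx
        have h3 : j x ∈ lift (IntermediateField.adjoin F (Set.range j')) := by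
          have h4 : (⟨j x, hmem ⟨x, hx⟩⟩ : fixedField (U.comap φ.toMonoidHom))
              ∈ IntermediateField.adjoin F (Set.range j') :=
            IntermediateField.subset_adjoin _ _ ⟨⟨x, hx⟩, rfl⟩
          exact (mem_lift (⟨j x, hmem ⟨x, hx⟩⟩ : fixedField (U.comap φ.toMonoidHom))).2 h4
        have h5 := hg _ h3
        rw [hφ] at h5
        exact j.injective h5
      rw [IntermediateField.fixingSubgroup_fixedField U] at h2
      exact h2
    have h2 := IntermediateField.fixedField_antitone h1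
    rw [IsGalois.fixedField_fixingSubgroup] at h2
    exact h2

end sub

section classes

variable {F : Type} [Field F] [NumberField F] {E : Type} [Field E] [CharZero E]
  (M : MotiveOver F E) (m : ℤ)

/-- the families which continue to `ℂ` and have quotients of their values in `E` -/
def SR : Subgroup ((E →+* ℂ) → ℂ → ℂˣ) where
  carrier := {g | ∃ e : E, e ≠ 0 ∧ ∀ ι, ∃ (f : ℂ → ℂ) (z z' : ℂ), (∀ s : ℂ, MeromorphicAt f s) ∧
    (∀ s : ℂ, 1 + (M.w : ℝ) / 2 < s.re → f s = g ι s) ∧ z' ≠ 0 ∧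
    Tendsto f (𝓝[≠] (m : ℂ)) (𝓝 z) ∧ Tendsto f (𝓝[≠] ((m : ℂ) + 1)) (𝓝 z') ∧ z = ι e * z'}
  one_mem' := ⟨1, one_ne_zero, fun ι => ⟨fun _ => 1, 1, 1, fun s => MeromorphicAt.const 1 s,
    fun s _ => rfl, one_ne_zero, tendsto_const_nhds, tendsto_const_nhds, by rw [map_one, one_mul]⟩⟩
  mul_mem' := by
    rintro a b ⟨e, he, h⟩ ⟨e', he', h'⟩
    refine ⟨e * e', mul_ne_zero he he', fun ι => ?_⟩
    obtain ⟨f, x, x', h1, h2, h3, h4, h5, h6⟩ := h ι
    obtain ⟨f', y, y', h1', h2', h3', h4', h5', h6'⟩ := h' ι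
    refine ⟨f * f', x * y, x' * y', fun s => (h1 s).mul (h1' s), fun s hs => ?_,
      mul_ne_zero h3 h3', h4.mul h4', h5.mul h5', ?_⟩
    · rw [Pi.mul_apply, h2 s hs, h2' s hs]
      rfl
    · rw [map_mul, h6, h6']
      ring
  inv_mem' := by
    rintro a ⟨e, he, h⟩
    refine ⟨e⁻¹, inv_ne_zero he, fun ι => ?_⟩
    obtain ⟨f, x, x', h1, h2, h3, h4, h5, h6⟩ := h ι
    have hx : x ≠ 0 := by
      rw [h6]
      exact mul_ne_zero ((map_ne_zero ι).mpr he) h3
    refine ⟨f⁻¹, x⁻¹, x'⁻¹, fun s => (h1 s).inv, fun s hs => ?_, inv_ne_zero h3,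
      h4.inv₀ hx, h5.inv₀ h3, ?_⟩
    · rw [Pi.inv_apply, h2 s hs]
      change _ = (((a ι s)⁻¹ : ℂˣ) : ℂ)
      rw [Units.val_inv_eq_inv_val]
    · rw [map_inv₀, h6, mul_inv]

variable {M m}

lemma mem_SR_of_one {g : (E →+* ℂ) → ℂ → ℂˣ}
    (h : ∀ ι s, 1 + (M.w : ℝ) / 2 < s.re → (g ι s : ℂ) = 1) : g ∈ SR M m :=
  ⟨1, one_ne_zero, fun ι => ⟨fun _ => 1, 1, 1, fun s => MeromorphicAt.const 1 s,
    fun s hs => (h ι s hs).symm, one_ne_zero, tendsto_const_nhds, tendsto_const_nhds,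
    by rw [map_one, one_mul]⟩⟩

variable (M m)

/-- the number `t` of `delta_key` -/
noncomputable def tt : ℂ := (delta_key M).choose

lemma tt_ne : tt M ≠ 0 := (delta_key M).choose_spec.1

lemma tt_spec (k : Type) [Field k] [NumberField k] [Algebra F k] (δ : ℂ) (h : IsDelta k δ) :
    ∃ q : ℚ, q ≠ 0 ∧ (Complex.I ^ (Module.finrank ℚ k / 2) * δ) ^ M.n
        = q * tt M ^ Module.finrank F k := (delta_key M).choose_spec.2 k δ h

/-- the predicted quotient over `F` (finite parts) -/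
noncomputable def tau : ℂ := tt M * gam M ((m : ℂ) + 1) / gam M (m : ℂ)

/-- the normalising function over `F` -/
noncomputable def nrm (s : ℂ) : ℂ := Complex.exp (Complex.log (tau M m) * (s - m))

lemma nrm_ne (s : ℂ) : nrm M m s ≠ 0 := Complex.exp_ne_zero _

lemma nrm_an (s : ℂ) : AnalyticAt ℂ (nrm M m) s := by
  unfold nrm
  fun_prop

lemma nrm_m : nrm M m (m : ℂ) = 1 := by
  rw [nrm, sub_self, mul_zero, Complex.exp_zero]

/-- the L-function, normalised -/
noncomputable def LR (k : Type) [Field k] [NumberField k] [Algebra F k] :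
    (E →+* ℂ) → ℂ → ℂˣ := fun ι s =>
  Units.mk0 (Complex.exp (lg M ι k s) * nrm M m s ^ Module.finrank F k)
    (mul_ne_zero (Complex.exp_ne_zero _) (pow_ne_zero _ (nrm_ne M m s)))

/-- its class -/
noncomputable def RR (k : Type) [Field k] [NumberField k] [Algebra F k] :
    ((E →+* ℂ) → ℂ → ℂˣ) ⧸ SR M m := QuotientGroup.mk (LR M m k)

variable {M m}

lemma LR_val (k : Type) [Field k] [NumberField k] [Algebra F k] (ι : E →+* ℂ) (s : ℂ) :
    (LR M m k ι s : ℂ) = Complex.exp (lg M ι k s) * nrm M m s ^ Module.finrank F k := rfl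

lemma gam1 (hm : IsCritical M m) : gam M (m : ℂ) ≠ 0 := gam_ne M fun p hp => by
  rw [Complex.intCast_re]
  exact_mod_cast (hm p hp).1

lemma gam2 (hm' : IsCritical M (m + 1)) : gam M ((m : ℂ) + 1) ≠ 0 := gam_ne M fun p hp => by
  rw [Complex.add_re, Complex.intCast_re, Complex.one_re]
  exact_mod_cast (hm' p hp).1

lemma tau_ne (hm : IsCritical M m) (hm' : IsCritical M (m + 1)) : tau M m ≠ 0 :=
  div_ne_zero (mul_ne_zero (tt_ne M) (gam2 hm')) (gam1 hm)

lemma nrm_m' (hm : IsCritical M m) (hm' : IsCritical M (m + 1)) :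
    nrm M m ((m : ℂ) + 1) = tau M m := by
  rw [nrm, add_sub_cancel_left, mul_one, Complex.exp_log (tau_ne hm hm')]

/-- the L-functions over `k` continue, with `x` the quotient of the values at `m` and `m + 1` -/
def HasRatio (M : MotiveOver F E) (ι : E →+* ℂ) (k : Type) [Field k] [NumberField k] [Algebra F k]
    (m : ℤ) (x : ℂ) : Prop :=
  ∃ (f : ℂ → ℂ) (z z' : ℂ), IsL M ι k f ∧ Tendsto f (𝓝[≠] (m : ℂ)) (𝓝 z) ∧
    Tendsto f (𝓝[≠] ((m : ℂ) + 1)) (𝓝 z') ∧ z' ≠ 0 ∧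
      (Linf M k m * z) / (Linf M k ((m : ℂ) + 1) * z') = x

/-- from the classes to the quotients -/
lemma hasRatio_of {k : Type} [Field k] [NumberField k] [Algebra F k] (hm : IsCritical M m)
    (hm' : IsCritical M (m + 1)) {ι : E →+* ℂ} {g : ℂ → ℂ} {z z' : ℂ}
    (h1 : ∀ s : ℂ, MeromorphicAt g s)
    (h2 : ∀ s : ℂ, 1 + (M.w : ℝ) / 2 < s.re → g s = LR M m k ι s) (h3 : z' ≠ 0)
    (h4 : Tendsto g (𝓝[≠] (m : ℂ)) (𝓝 z)) (h5 : Tendsto g (𝓝[≠] ((m : ℂ) + 1)) (𝓝 z')) :
    HasRatio M ι k m (z / z' * tt M ^ Module.finrank F k) := by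
  have hn : ∀ s, Tendsto (fun s => nrm M m s ^ Module.finrank F k) (𝓝[≠] s)
      (𝓝 (nrm M m s ^ Module.finrank F k)) := fun s =>
    (((nrm_an M m s).continuousAt.pow _).tendsto).mono_left nhdsWithin_le_nhds
  have hn0 : ∀ s, nrm M m s ^ Module.finrank F k ≠ 0 := fun s => pow_ne_zero _ (nrm_ne M m s)
  refine ⟨fun s => g s / nrm M m s ^ Module.finrank F k, z / nrm M m (m : ℂ) ^ Module.finrank F k,
    z' / nrm M m ((m : ℂ) + 1) ^ Module.finrank F k, ⟨fun s => ?_, fun s hs => ?_⟩,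
    h4.div (hn _) (hn0 _), h5.div (hn _) (hn0 _), div_ne_zero h3 (hn0 _), ?_⟩
  · exact (h1 s).fun_div ((nrm_an M m s).meromorphicAt.fun_pow _)
  · change HasProd _ (g s / nrm M m s ^ Module.finrank F k)
    rw [h2 s hs, LR_val, mul_div_cancel_right₀ _ (hn0 s)]
    exact hasProd_euler M ι hs
  · rw [nrm_m, nrm_m' hm hm', one_pow, div_one, tau, div_pow, mul_pow]
    have e1 := gam1 hm
    have e2 := gam2 hm'
    have e3 := tt_ne M
    change (gam M m ^ _ * _) / (gam M ((m : ℂ) + 1) ^ _ * _) = _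
    field_simp

/-- from the quotients to the classes -/
lemma of_hasRatio {k : Type} [Field k] [NumberField k] [Algebra F k] (hm : IsCritical M m)
    (hm' : IsCritical M (m + 1)) {ι : E →+* ℂ} {x : ℂ} (h : HasRatio M ι k m x) :
    ∃ (g : ℂ → ℂ) (z z' : ℂ), (∀ s : ℂ, MeromorphicAt g s) ∧
      (∀ s : ℂ, 1 + (M.w : ℝ) / 2 < s.re → g s = LR M m k ι s) ∧ z' ≠ 0 ∧
      Tendsto g (𝓝[≠] (m : ℂ)) (𝓝 z) ∧ Tendsto g (𝓝[≠] ((m : ℂ) + 1)) (𝓝 z') ∧
      z / z' * tt M ^ Module.finrank F k = x := by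
  obtain ⟨f, z, z', h1, h2, h3, h4, h5⟩ := h
  have hn : ∀ s, Tendsto (fun s => nrm M m s ^ Module.finrank F k) (𝓝[≠] s)
      (𝓝 (nrm M m s ^ Module.finrank F k)) := fun s =>
    (((nrm_an M m s).continuousAt.pow _).tendsto).mono_left nhdsWithin_le_nhds
  have hn0 : ∀ s, nrm M m s ^ Module.finrank F k ≠ 0 := fun s => pow_ne_zero _ (nrm_ne M m s)
  refine ⟨fun s => f s * nrm M m s ^ Module.finrank F k, z * nrm M m (m : ℂ) ^ Module.finrank F k,
    z' * nrm M m ((m : ℂ) + 1) ^ Module.finrank F k, fun s => ?_, fun s hs => ?_,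
    mul_ne_zero h4 (hn0 _), h2.mul (hn _), h3.mul (hn _), ?_⟩
  · exact (h1.1 s).fun_mul ((nrm_an M m s).meromorphicAt.fun_pow _)
  · change f s * nrm M m s ^ Module.finrank F k = _
    rw [LR_val, (h1.2 s hs).unique (hasProd_euler M ι hs)]
  · rw [nrm_m, nrm_m' hm hm', one_pow, mul_one, tau, ← h5, div_pow, mul_pow]
    have e1 := gam1 hm
    have e2 := gam2 hm'
    have e3 := tt_ne M
    change _ = (gam M m ^ _ * _) / (gam M ((m : ℂ) + 1) ^ _ * _)
    field_simp

lemma RR_of_ratio {k : Type} [Field k] [NumberField k] [Algebra F k] (hm : IsCritical M m)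
    (hm' : IsCritical M (m + 1)) (h : RatioEquality M k m) : RR M m k = 1 := by
  obtain ⟨e, he, δ, hδ, h1⟩ := h
  obtain ⟨q, hq0, hq⟩ := tt_spec M k δ hδ
  rw [RR, QuotientGroup.eq_one_iff]
  refine ⟨e * (q : E), mul_ne_zero he (by exact_mod_cast hq0), fun ι => ?_⟩
  obtain ⟨g, z, z', g1, g2, g3, g4, g5, g6⟩ := of_hasRatio hm hm' (h1 ι)
  refine ⟨g, z, z', g1, g2, g3, g4, g5, ?_⟩
  rw [hq, ← mul_assoc] at g6
  have g7 := mul_right_cancel₀ (pow_ne_zero _ (tt_ne M)) g6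
  rw [map_mul, map_ratCast, ← g7, div_mul_cancel₀ _ g3]

lemma ratio_of_RR {k : Type} [Field k] [NumberField k] [Algebra F k] (hm : IsCritical M m)
    (hm' : IsCritical M (m + 1)) (h : RR M m k = 1) : RatioEquality M k m := by
  rw [RR, QuotientGroup.eq_one_iff] at h
  obtain ⟨e, he, h1⟩ := h
  obtain ⟨δ, hδ⟩ := isDelta_exists k
  obtain ⟨q, hq0, hq⟩ := tt_spec M k δ hδ
  have hqE : (q : E) ≠ 0 := by exact_mod_cast hq0
  have hqC : (q : ℂ) ≠ 0 := by exact_mod_cast hq0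
  refine ⟨e * (q : E)⁻¹, mul_ne_zero he (inv_ne_zero hqE), δ, hδ, fun ι => ?_⟩
  obtain ⟨g, z, z', g1, g2, g3, g4, g5, g6⟩ := h1 ι
  have h2 := hasRatio_of hm hm' g1 g2 g3 g4 g5
  rw [g6, mul_div_cancel_right₀ _ g3] at h2
  have h3 : ι (e * (q : E)⁻¹) * (Complex.I ^ (Module.finrank ℚ k / 2) * δ) ^ M.n
      = ι e * tt M ^ Module.finrank F k := by
    rw [hq, map_mul, map_inv₀, map_ratCast]
    field_simp
  rw [h3]
  exact h2

theorem RR_iso {k k' : Type} [Field k] [NumberField k] [Algebra F k] [Field k'] [NumberField k']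
    [Algebra F k'] (e : k ≃ₐ[F] k') : RR M m k = RR M m k' := by
  rw [RR, RR, QuotientGroup.eq]
  refine mem_SR_of_one fun ι s hs => ?_
  have h7 : (((LR M m k)⁻¹ * LR M m k' : (E →+* ℂ) → ℂ → ℂˣ) ι s : ℂ)
      = (LR M m k ι s : ℂ)⁻¹ * (LR M m k' ι s : ℂ) := by
    rw [Pi.mul_apply, Pi.mul_apply, Units.val_mul, Pi.inv_apply, Pi.inv_apply,
      Units.val_inv_eq_inv_val]
  have h8 : (LR M m k ι s : ℂ) = (LR M m k' ι s : ℂ) := by
    rw [LR_val, LR_val, exp_lg_iso M e ι hs, e.toLinearEquiv.finrank_eq]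
  rw [h7, h8, inv_mul_cancel₀ (Units.ne_zero _)]

/-- relations between permutation characters -/
theorem RR_rel {K : Type} [Field K] [NumberField K] [Algebra F K] [IsGalois F K]
    {V : Subgroup (K ≃ₐ[F] K)} [Fintype (Subgroup (K ≃ₐ[F] K))] {c : Subgroup (K ≃ₐ[F] K) → ℤ}
    (hc2 : ∀ g : K ≃ₐ[F] K, ∑ U, (c U : ℂ) * ind U (fun _ => (1 : ℂ)) g
      = ind V (fun _ => (1 : ℂ)) g) :
    ∏ U, RR M m (fixedField U) ^ c U = RR M m (fixedField V) := by
  classical
  have hc3 : ∀ g : K ≃ₐ[F] K, ∑ U, c U * (Pool.Agent.K9h41.DC.fx U g : ℤ)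
      = Pool.Agent.K9h41.DC.fx V g := fun g => by
    have h1 := hc2 g
    rw [Pool.Agent.K9h41.DC.ind_one] at h1
    have h2 : ∑ U, (c U : ℂ) * Pool.Agent.K9h41.DC.fx U g = Pool.Agent.K9h41.DC.fx V g := by
      rw [← h1]
      exact Finset.sum_congr rfl fun U _ => by rw [Pool.Agent.K9h41.DC.ind_one]
    exact_mod_cast h2
  have hdeg : ∑ U, c U * (Module.finrank F (fixedField U) : ℤ)
      = Module.finrank F (fixedField V) := by
    rw [← (mat_fixed V).deg, ← hc3 1]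
    exact Finset.sum_congr rfl fun U _ => by rw [(mat_fixed U).deg]
  have h1 : ∏ U, RR M m (fixedField U) ^ c U
      = QuotientGroup.mk (∏ U, LR M m (fixedField U) ^ c U) := by
    rw [QuotientGroup.mk_prod]
    exact Finset.prod_congr rfl fun U _ => (QuotientGroup.mk_zpow (SR M m) _ _).symm
  rw [h1, RR, QuotientGroup.eq]
  refine mem_SR_of_one (fun ι s hs => ?_)
  have h2 : ((∏ U, LR M m (fixedField U) ^ c U : (E →+* ℂ) → ℂ → ℂˣ) ι s : ℂ)
      = (LR M m (fixedField V) ι s : ℂ) := by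
    rw [Finset.prod_apply, Finset.prod_apply, Units.coe_prod, LR_val,
      ← lg_rel (mat_fixed V) hc2 M ι hs, Complex.exp_sum,
      ← prod_zpow_nat _ (nrm_ne M m s) _ _ hdeg, ← Finset.prod_mul_distrib]
    refine Finset.prod_congr rfl fun U _ => ?_
    rw [Pi.pow_apply, Pi.pow_apply, Units.val_zpow_eq_zpow_val, LR_val, mul_zpow,
      ← Complex.exp_int_mul]
  have h7 : (((∏ U, LR M m (fixedField U) ^ c U)⁻¹ * LR M m (fixedField V) :
      (E →+* ℂ) → ℂ → ℂˣ) ι s : ℂ) = ((∏ U, LR M m (fixedField U) ^ c U :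
        (E →+* ℂ) → ℂ → ℂˣ) ι s : ℂ)⁻¹ * (LR M m (fixedField V) ι s : ℂ) := by
    rw [Pi.mul_apply, Pi.mul_apply, Units.val_mul, Pi.inv_apply, Pi.inv_apply,
      Units.val_inv_eq_inv_val]
  rw [h7, h2, inv_mul_cancel₀ (Units.ne_zero _)]

end classes

end Pool.Agent.K9h67.EW
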