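import Mathlib
import Pool.Agent.K9h67.EW.Rl
import Pool.Agent.K9h67.EW.Mul

/-!
# Functions of the extensions of a number field which respect the relations between permutation
characters
-/

set_option autoImplicit false
set_option linter.unusedSectionVars false

open NumberField NumberField.InfinitePlace IntermediateField
  Pool.Agent.R389 Pool.Agent.K4H74.ST Pool.Agent.K4H74.SC Pool.Agent.K9h86.RT

namespace Pool.Agent.K9h67.EW

/-- functions of the extensions of `F` which respect the relations between permutation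
characters -/
structure FFn (F : Type) [Field F] [NumberField F] (A : Type) [CommGroup A] where
  /-- the value -/
  v : (k : Type) → [Field k] → [NumberField k] → [Algebra F k] → A
  iso : ∀ (k k' : Type) [Field k] [NumberField k] [Algebra F k] [Field k'] [NumberField k']
    [Algebra F k'], (k ≃ₐ[F] k') → v k = v k'
  rel : ∀ (K : Type) [Field K] [NumberField K] [Algebra F K] [IsGalois F K]
    [Fintype (Subgroup (K ≃ₐ[F] K))] (V : Subgroup (K ≃ₐ[F] K)) (c : Subgroup (K ≃ₐ[F] K) → ℤ),
    (∀ g : K ≃ₐ[F] K, ∑ U, (c U : ℂ) * ind U (fun _ => (1 : ℂ)) g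
      = ind V (fun _ => (1 : ℂ)) g) → ∏ U, v (fixedField U) ^ c U = v (fixedField V)

section homF

variable {F : Type} [Field F] [NumberField F] {A : Type} [CommGroup A] (R : FFn F A)
  {K : Type} [Field K] [NumberField K] [Algebra F K] [IsGalois F K]

/-- relations between permutation characters -/
lemma relF_zero [Fintype (Subgroup (K ≃ₐ[F] K))] {c : Subgroup (K ≃ₐ[F] K) → ℤ}
    (h : ∀ g : K ≃ₐ[F] K, ∑ U, (c U : ℂ) * ind U (fun _ => (1 : ℂ)) g = 0) :
    ∏ U, R.v (fixedField U) ^ c U = 1 := by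
  classical
  have h1 := R.rel K ⊤ (c + Pi.single ⊤ 1) (fun g => by
    simp only [Pi.add_apply, Int.cast_add, add_mul]
    rw [Finset.sum_add_distrib, h g, zero_add, Finset.sum_eq_single ⊤]
    · rw [Pi.single_eq_same, Int.cast_one, one_mul]
    · intro U _ hU
      rw [Pi.single_eq_of_ne hU, Int.cast_zero, zero_mul]
    · intro h0
      exact absurd (Finset.mem_univ _) h0)
  simp only [Pi.add_apply, zpow_add] at h1
  rw [Finset.prod_mul_distrib, Finset.prod_eq_single (f := fun U =>
    R.v (fixedField U) ^ (Pi.single ⊤ 1 : Subgroup (K ≃ₐ[F] K) → ℤ) U) ⊤] at h1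
  · rw [Pi.single_eq_same, zpow_one] at h1
    exact mul_eq_right.mp h1
  · intro U _ hU
    rw [Pi.single_eq_of_ne hU, zpow_zero]
  · intro h0
    exact absurd (Finset.mem_univ _) h0

/-- the value of a combination of permutation characters -/
def HW (f : (K ≃ₐ[F] K) → ℂ) (a : A) : Prop :=
  ∃ c : Subgroup (K ≃ₐ[F] K) → ℤ, (∀ g, ∑ᶠ U, (c U : ℂ) * ind U (fun _ => (1 : ℂ)) g = f g) ∧
    ∏ᶠ U, R.v (fixedField U) ^ c U = a

variable {R}

lemma HW.add {f f' : (K ≃ₐ[F] K) → ℂ} {a a' : A} (h : HW R f a) (h' : HW R f' a') :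
    HW R (f + f') (a * a') := by
  classical
  obtain ⟨c, h1, rfl⟩ := h
  obtain ⟨c', h1', rfl⟩ := h'
  refine ⟨c + c', fun g => ?_, ?_⟩
  · rw [Pi.add_apply, ← h1 g, ← h1' g, ← finsum_add_distrib (Set.toFinite _) (Set.toFinite _)]
    refine finsum_congr fun U => ?_
    simp only [Pi.add_apply]
    push_cast
    ring
  · rw [← finprod_mul_distrib (Set.toFinite _) (Set.toFinite _)]
    refine finprod_congr fun U => ?_
    rw [Pi.add_apply, zpow_add]

lemma HW.neg {f : (K ≃ₐ[F] K) → ℂ} {a : A} (h : HW R f a) : HW R (-f) a⁻¹ := by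
  classical
  obtain ⟨c, h1, rfl⟩ := h
  refine ⟨-c, fun g => ?_, ?_⟩
  · rw [Pi.neg_apply, ← h1 g, ← finsum_neg_distrib]
    refine finsum_congr fun U => ?_
    simp
  · rw [← finprod_inv_distrib]
    refine finprod_congr fun U => ?_
    rw [Pi.neg_apply, zpow_neg]

lemma HW.sub {f f' : (K ≃ₐ[F] K) → ℂ} {a a' : A} (h : HW R f a) (h' : HW R f' a') :
    HW R (f - f') (a * a'⁻¹) := by
  rw [sub_eq_add_neg]
  exact h.add h'.neg

lemma HW.ind (U : Subgroup (K ≃ₐ[F] K)) :
    HW R (ind U (fun _ => (1 : ℂ))) (R.v (fixedField U)) := by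
  classical
  have : Fintype (Subgroup (K ≃ₐ[F] K)) := Fintype.ofFinite _
  refine ⟨Pi.single U 1, fun g => ?_, ?_⟩
  · rw [finsum_eq_single _ U]
    · rw [Pi.single_eq_same, Int.cast_one, one_mul]
    · intro W hW
      rw [Pi.single_eq_of_ne hW, Int.cast_zero, zero_mul]
  · rw [finprod_eq_single _ U]
    · rw [Pi.single_eq_same, zpow_one]
    · intro W hW
      rw [Pi.single_eq_of_ne hW, zpow_zero]

lemma HW.unique {f : (K ≃ₐ[F] K) → ℂ} {a a' : A} (h : HW R f a) (h' : HW R f a') : a = a' := by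
  classical
  have : Fintype (Subgroup (K ≃ₐ[F] K)) := Fintype.ofFinite _
  obtain ⟨c, h1, h2⟩ := h.sub h'
  have h3 := relF_zero R (c := c) (fun g => by
    rw [← finsum_eq_sum_of_fintype, h1 g, sub_self]
    rfl)
  rw [← finprod_eq_prod_of_fintype, h2] at h3
  exact mul_inv_eq_one.mp h3

lemma HW.zero : HW R (0 : (K ≃ₐ[F] K) → ℂ) 1 := by
  refine ⟨0, fun g => ?_, ?_⟩
  · change _ = (0 : ℂ)
    refine (finsum_congr (g := fun _ : Subgroup (K ≃ₐ[F] K) => (0 : ℂ)) fun U => ?_).trans
      finsum_zero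
    rw [Pi.zero_apply, Int.cast_zero, zero_mul]
  · refine (finprod_congr (g := fun _ : Subgroup (K ≃ₐ[F] K) => (1 : A)) fun U => ?_).trans
      finprod_one
    rw [Pi.zero_apply, zpow_zero]

lemma HW.nsmul {f : (K ≃ₐ[F] K) → ℂ} {a : A} (h : HW R f a) (n : ℕ) :
    HW R (n • f) (a ^ n) := by
  induction n with
  | zero =>
    rw [zero_smul, pow_zero]
    exact HW.zero
  | succ n ih =>
    rw [succ_nsmul, pow_succ]
    exact ih.add h

lemma HW.sum {I : Type} (s : Finset I) {f : I → (K ≃ₐ[F] K) → ℂ} {a : I → A}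
    (h : ∀ i ∈ s, HW R (f i) (a i)) : HW R (∑ i ∈ s, f i) (∏ i ∈ s, a i) := by
  classical
  induction s using Finset.induction_on with
  | empty =>
    rw [Finset.sum_empty, Finset.prod_empty]
    exact HW.zero
  | insert x s hx ih =>
    rw [Finset.sum_insert hx, Finset.prod_insert hx]
    exact (h x (Finset.mem_insert_self _ _)).add
      (ih fun i hi => h i (Finset.mem_insert_of_mem hi))

end homF

section cls

variable {F : Type} [Field F] [NumberField F] {E : Type} [Field E] [CharZero E]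

/-- the classes of the L-functions over the extensions of `F` -/
noncomputable def RF (M : MotiveOver F E) (m : ℤ) :
    FFn F (((E →+* ℂ) → ℂ → ℂˣ) ⧸ SR M m) where
  v k := RR M m k
  iso _ _ _ _ _ _ _ _ e := RR_iso e
  rel _ _ _ _ _ _ V c hc := RR_rel (V := V) (c := c) hc

end cls

end Pool.Agent.K9h67.EW
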