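import Mathlib
import Pool.Agent.K9h86.RT.Df
import Pool.Agent.K9h67.EV.Pad

/-!
# Powers of the ratio of two successive critical values, and composites with totally real fields:
the definitions
-/

set_option autoImplicit false

namespace Pool.Agent.K9h67.EW

open NumberField Filter Topology IsDedekindDomain Pool.Agent.K9h86.RT Pool.Agent.K9h67.EV

/-- The extension `k` of `F` is generated over `F` by a test field: `k = F · k₀` with a totally real
number field `k₀` in which all the primes of `S` split completely (`TestField S k₀`). -/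
def IsTestComposite (S : Finset ℕ) (F k : Type) [Field F] [Field k] [Algebra F k] : Prop :=
  ∃ (k₀ : Type) (_ : Field k₀) (_ : NumberField k₀) (j : k₀ →+* k), TestField S k₀ ∧
    IntermediateField.adjoin F (Set.range j) = ⊤

/-- **The equality of Q1 for the powers with the exponent `g`**, for the base change `M_k` and the
integer `m`: the powers with the exponent `g` of the L-functions continue to `ℂ` (`f ι` is
`∏ (Euler factors)^g` for `Re s > 1 + w / 2`), they have values `z` and `z'` at `m` and at `m + 1`,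
the value at `m + 1` is not zero, and with the archimedean factors `L_∞`
`(L_∞(m)^g z) / (L_∞(m + 1)^g z') = ((i^(d/2) Δ)^n)^g` in `(E ⊗ ℂ) / E^×`, where `d` is the degree
of `k`. For `g = 1` it is `RatioEquality M k m`. -/
def PowerRatioEquality {F : Type} [Field F] [NumberField F] {E : Type} [Field E]
    (M : MotiveOver F E) (k : Type) [Field k] [NumberField k] [Algebra F k] (m : ℤ) (g : ℕ) :
    Prop :=
  ∃ e : E, e ≠ 0 ∧ ∃ δ : ℂ, IsDelta k δ ∧ ∀ ι : E →+* ℂ, ∃ (f : ℂ → ℂ) (z z' : ℂ),
    (∀ s : ℂ, MeromorphicAt f s) ∧ (∀ s : ℂ, 1 + (M.w : ℝ) / 2 < s.re →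
      HasProd (fun v => eulerFactor M ι k v s ^ g) (f s)) ∧
    Tendsto f (𝓝[≠] (m : ℂ)) (𝓝 z) ∧ Tendsto f (𝓝[≠] ((m : ℂ) + 1)) (𝓝 z') ∧
    z' ≠ 0 ∧ (Linf M k m ^ g * z) / (Linf M k ((m : ℂ) + 1) ^ g * z') =
      ι e * ((Complex.I ^ (Module.finrank ℚ k / 2) * δ) ^ M.n) ^ g

end Pool.Agent.K9h67.EW
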