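import Mathlib
import Pool.Agent.K9h67.EW.AbsF
import Pool.Agent.K9h67.EW.PowD

/-!
# Composites of `F` with test fields, and the `p`-th powers of the classes
-/

set_option autoImplicit false
set_option linter.unusedSectionVars false

open NumberField IntermediateField Polynomial Pool.Agent.R389 Pool.Agent.K4H74.ST
  Pool.Agent.K4H74.SC Pool.Agent.K9h86.RT Pool.Agent.K9h41.LD

namespace Pool.Agent.K9h67.EW

open Pool.Agent.K9h67.EV

section comp

variable {F N₀ : Type} [Field F] [NumberField F] [Field N₀] [NumberField N₀] [IsGalois ℚ N₀]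

/-- a composite of `F` and `N₀`, without disjointness (the proof is that of
`Pool.Agent.K9h76.LB.exists_comp`) -/
theorem exists_comp_gen (F N₀ : Type) [Field F] [NumberField F] [Field N₀] [NumberField N₀]
    [IsGalois ℚ N₀] :
    ∃ (K : Type) (_ : Field K) (_ : NumberField K) (_ : Algebra F K) (_ : IsGalois F K)
      (j : N₀ →+* K) (φ : (K ≃ₐ[F] K) →* (N₀ ≃ₐ[ℚ] N₀)), Function.Injective φ ∧
        ∀ g x, g (j x) = j (φ g x) := by
  classical
  obtain ⟨α, hα⟩ := Field.exists_primitive_element ℚ N₀
  have hαi : IsIntegral ℚ α := Algebra.IsIntegral.isIntegral α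
  let f : ℚ[X] := minpoly ℚ α
  let fF : F[X] := f.map (algebraMap ℚ F)
  let K := fF.SplittingField
  have hfirr : Irreducible f := minpoly.irreducible hαi
  have hfsep : f.Separable := hfirr.separable
  have hsep : fF.Separable := hfsep.map
  have hfin : Module.Finite F K := inferInstance
  have hNF : NumberField K := NumberField.of_module_finite F K
  have hgal : IsGalois F K := IsGalois.of_separable_splitting_field (p := fF) hsep
  have hspl : (fF.map (algebraMap F K)).Splits := SplittingField.splits fF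
  have hmap : f.map (algebraMap ℚ K) = fF.map (algebraMap F K) := by
    rw [Polynomial.map_map]
    congr 1
  have hdeg : (f.map (algebraMap ℚ K)).degree ≠ 0 := by
    rw [degree_map]
    exact (minpoly.degree_pos hαi).ne'
  obtain ⟨y, hy⟩ := (hmap ▸ hspl : (f.map (algebraMap ℚ K)).Splits).exists_eval_eq_zero hdeg
  have hy' : aeval y f = 0 := by
    rw [aeval_def, ← eval_map]
    exact hy
  let e₀ : ℚ⟮α⟯ ≃ₐ[ℚ] N₀ := (IntermediateField.equivOfEq hα).trans IntermediateField.topEquiv
  let j₀ : ℚ⟮α⟯ →ₐ[ℚ] K := (adjoin.powerBasis hαi).lift y (by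
    rw [adjoin.powerBasis_gen, minpoly_gen]
    exact hy')
  let j : N₀ →ₐ[ℚ] K := j₀.comp e₀.symm.toAlgHom
  let _ : Algebra N₀ K := j.toRingHom.toAlgebra
  have hst : IsScalarTower ℚ N₀ K := IsScalarTower.of_algebraMap_eq fun x => (j.commutes x).symm
  let ρ : (K ≃ₐ[ℚ] K) →* (N₀ ≃ₐ[ℚ] N₀) := AlgEquiv.restrictNormalHom N₀
  let φ : (K ≃ₐ[F] K) →* (N₀ ≃ₐ[ℚ] N₀) := ρ.comp (AlgEquiv.restrictScalarsHom ℚ)
  have hφ : ∀ (g : K ≃ₐ[F] K) (x : N₀), g (j x) = j (φ g x) := fun g x =>
    (AlgEquiv.restrictNormal_commutes (AlgEquiv.restrictScalarsHom ℚ g) N₀ x).symm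
  have hsp0 : (f.map (algebraMap ℚ N₀)).Splits := Normal.splits inferInstance α
  have hroots : ∀ z : K, aeval z fF = 0 → ∃ x : N₀, j x = z := by
    intro z hz
    have h1 : (f.map (algebraMap ℚ K)).IsRoot z := by
      rw [IsRoot.def, hmap, eval_map, ← aeval_def]
      exact hz
    have h2 : f.map (algebraMap ℚ K) = (f.map (algebraMap ℚ N₀)).map j.toRingHom := by
      rw [Polynomial.map_map]
      congr 1
      exact (j.comp_algebraMap).symm
    rw [h2, IsRoot.def] at h1
    have hne : f.map (algebraMap ℚ N₀) ≠ 0 := Polynomial.map_ne_zero hfirr.ne_zero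
    have h3 : z ∈ ((f.map (algebraMap ℚ N₀)).map j.toRingHom).roots :=
      (mem_roots (Polynomial.map_ne_zero hne)).2 h1
    rw [hsp0.roots_map j.toRingHom] at h3
    obtain ⟨x, -, hx⟩ := Multiset.mem_map.1 h3
    exact ⟨x, hx⟩
  have hinj : Function.Injective φ := by
    rw [injective_iff_map_eq_one]
    intro g hg
    have h1 : ∀ x, g (j x) = j x := by
      intro x
      rw [hφ, hg]
      rfl
    have h2 : (g : K →ₐ[F] K) = AlgHom.id F K := by
      refine AlgHom.ext_of_adjoin_eq_top (s := fF.rootSet K) (SplittingField.adjoin_rootSet fF) ?_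
      intro z hz
      obtain ⟨x, hx⟩ := hroots z (mem_rootSet.1 hz).2
      rw [← hx]
      exact h1 x
    ext z
    exact congrArg (fun u : K →ₐ[F] K => u z) h2
  exact ⟨K, inferInstance, hNF, inferInstance, hgal, j.toRingHom, φ, hinj, hφ⟩

/-- the intermediate fields are generated by test fields -/
theorem isTest_sub {S : Finset ℕ} (hN : TestField S N₀) {K : Type} [Field K] [NumberField K]
    [Algebra F K] [IsGalois F K] (j : N₀ →+* K) (φ : (K ≃ₐ[F] K) →* (N₀ ≃ₐ[ℚ] N₀))
    (hinj : Function.Injective φ) (hφ : ∀ g x, g (j x) = j (φ g x))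
    (U : Subgroup (K ≃ₐ[F] K)) : IsTestComposite S F (fixedField U) := by
  classical
  have hfin : FiniteDimensional F K := Module.Finite.of_restrictScalars_finite ℚ F K
  have hmem : ∀ x : fixedField (U.map φ), j (x : N₀) ∈ fixedField U := by
    intro x g
    change (g : K ≃ₐ[F] K) (j x) = j x
    rw [hφ]
    congr 1
    exact x.2 ⟨φ g, Subgroup.mem_map_of_mem φ g.2⟩
  let j' : fixedField (U.map φ) →+* fixedField U :=
    (j.comp (fixedField (U.map φ)).val.toRingHom).codRestrict (fixedField U).toSubfield hmem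
  refine ⟨fixedField (U.map φ), inferInstance, inferInstance, j',
    hN.sub (fixedField (U.map φ)).val, ?_⟩
  apply IntermediateField.lift_injective (fixedField U)
  rw [IntermediateField.lift_top]
  refine le_antisymm (lift_le _) ?_
  have h1 : fixingSubgroup (lift (IntermediateField.adjoin F (Set.range j'))) ≤ U := by
    intro g hg
    rw [IntermediateField.mem_fixingSubgroup_iff] at hg
    have h2 : φ g ∈ (fixedField (U.map φ)).fixingSubgroup := by
      rw [IntermediateField.mem_fixingSubgroup_iff]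
      intro x hx
      have h3 : j x ∈ lift (IntermediateField.adjoin F (Set.range j')) := by
        have h4 : (⟨j x, hmem ⟨x, hx⟩⟩ : fixedField U)
            ∈ IntermediateField.adjoin F (Set.range j') :=
          IntermediateField.subset_adjoin _ _ ⟨⟨x, hx⟩, rfl⟩
        exact (mem_lift (⟨j x, hmem ⟨x, hx⟩⟩ : fixedField U)).2 h4
      have h5 := hg _ h3
      rw [hφ] at h5
      exact j.injective h5
    rw [IntermediateField.fixingSubgroup_fixedField (U.map φ)] at h2
    obtain ⟨u, hu, hug⟩ := h2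
    have h6 : u = g := hinj hug
    rw [← h6]
    exact hu
  have h2 := IntermediateField.fixedField_antitone h1
  rw [IsGalois.fixedField_fixingSubgroup] at h2
  exact h2

/-- embedding of an extension generated by a subfield of `N₀` -/
theorem exists_embed {k₀ k : Type} [Field k₀] [NumberField k₀] [Field k] [NumberField k]
    [Algebra F k] (j₀ : k₀ →+* k) (hj₀ : IntermediateField.adjoin F (Set.range j₀) = ⊤)
    (i₀ : k₀ →ₐ[ℚ] N₀) {K : Type} [Field K] [NumberField K] [Algebra F K] (j : N₀ →+* K) :
    Nonempty (k →ₐ[F] K) := by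
  classical
  obtain ⟨α, hα⟩ := Field.exists_primitive_element ℚ k₀
  have hgen := gen_comp hα j₀ hj₀
  have : FiniteDimensional F k := Module.Finite.of_restrictScalars_finite ℚ F k
  have hi : IsIntegral F (j₀ α) := Algebra.IsIntegral.isIntegral _
  have hne : minpoly ℚ α ≠ 0 := minpoly.ne_zero (Algebra.IsIntegral.isIntegral α)
  have hd : minpoly F (j₀ α) ∣ (minpoly ℚ α).map (algebraMap ℚ F) := by
    apply minpoly.dvd
    rw [aeval_map_algebraMap]
    have h4 := Polynomial.aeval_algHom_apply (j₀.toRatAlgHom) α (minpoly ℚ α)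
    rw [minpoly.aeval, map_zero] at h4
    exact h4
  have hs : ((minpoly ℚ α).map (algebraMap ℚ N₀)).Splits := by
    have h5 := (inferInstance : Normal ℚ N₀).splits (i₀ α)
    rwa [minpoly.algHom_eq i₀ i₀.injective] at h5
  have hs' : (((minpoly ℚ α).map (algebraMap ℚ F)).map (algebraMap F K)).Splits := by
    have h5 := hs.map j
    rw [Polynomial.map_map] at h5 ⊢
    have h6 : (algebraMap F K).comp (algebraMap ℚ F) = j.comp (algebraMap ℚ N₀) :=
      RingHom.ext_rat _ _
    rwa [h6]
  have hs'' : ((minpoly F (j₀ α)).map (algebraMap F K)).Splits :=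
    hs'.of_dvd (Polynomial.map_ne_zero (Polynomial.map_ne_zero hne)) (Polynomial.map_dvd _ hd)
  obtain ⟨y, hy⟩ := hs''.exists_eval_eq_zero (by
    rw [degree_map]
    exact (minpoly.degree_pos hi).ne')
  rw [eval_map_algebraMap] at hy
  let e₀ : F⟮j₀ α⟯ ≃ₐ[F] k := (IntermediateField.equivOfEq hgen).trans IntermediateField.topEquiv
  let f : F⟮j₀ α⟯ →ₐ[F] K := (adjoin.powerBasis hi).lift y (by
    rw [adjoin.powerBasis_gen, minpoly_gen]
    exact hy)
  exact ⟨f.comp e₀.symm.toAlgHom⟩

/-- the subgroup of an embedded extension -/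
lemma exists_subgroupF {K k : Type} [Field K] [NumberField K] [Algebra F K] [IsGalois F K]
    [Field k] [NumberField k] [Algebra F k] (i : k →ₐ[F] K) :
    ∃ V : Subgroup (K ≃ₐ[F] K), Nonempty (k ≃ₐ[F] fixedField V) ∧
      V.index = Module.finrank F k := by
  have hfin : FiniteDimensional F K := Module.Finite.of_restrictScalars_finite ℚ F K
  refine ⟨i.fieldRange.fixingSubgroup, ?_⟩
  have h1 : fixedField i.fieldRange.fixingSubgroup = i.fieldRange :=
    IsGalois.fixedField_fixingSubgroup _
  have e : k ≃ₐ[F] i.fieldRange := AlgEquiv.ofInjectiveField i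
  have e' : k ≃ₐ[F] fixedField i.fieldRange.fixingSubgroup :=
    e.trans (IntermediateField.equivOfEq h1.symm)
  refine ⟨⟨e'⟩, ?_⟩
  rw [← finrank_eq_fixingSubgroup_index]
  exact e.toLinearEquiv.finrank_eq.symm

end comp

end Pool.Agent.K9h67.EW
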