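import Mathlib
import Pool.Agent.K9h67.EW.OverF

/-!
# The `p`-th powers of the values of the composites of `F` with test fields
-/

set_option autoImplicit false
set_option linter.unusedSectionVars false

open NumberField IntermediateField Pool.Agent.R389 Pool.Agent.K4H74.ST Pool.Agent.K4H74.SC
  Pool.Agent.K9h41.DC Pool.Agent.K9h41.LD

namespace Pool.Agent.K9h67.EW

open Pool.Agent.K9h67.EV

/-- a quotient `(ℤ/p)²` of a subgroup whose image in an elementary abelian group has a small
index -/
lemma exists_plane {p : ℕ} [Fact p.Prime] {G : Type} [Group G] {d : ℕ}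
    (θ : G →* Multiplicative (Fin (d + 2) → ZMod p)) (V : Subgroup G)
    (hidx : (V.map θ).index ≤ d) :
    ∃ f : G →* Multiplicative (ZMod p × ZMod p), ∀ y, ∃ v ∈ V, f v = y := by
  classical
  have hp : 1 < p := (Fact.out : p.Prime).one_lt
  let W : Submodule (ZMod p) (Fin (d + 2) → ZMod p) :=
    AddSubgroup.toZModSubmodule p (Subgroup.toAddSubgroup' (V.map θ))
  have hW : ∀ x, x ∈ W ↔ Multiplicative.ofAdd x ∈ V.map θ := fun x => Iff.rfl
  have hcard : Nat.card W * (V.map θ).index = p ^ (d + 2) := by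
    have h1 := Subgroup.card_mul_index (V.map θ)
    have h2 : Nat.card (Multiplicative (Fin (d + 2) → ZMod p)) = p ^ (d + 2) := by
      rw [Nat.card_eq_fintype_card, Fintype.card_multiplicative, Fintype.card_fun, ZMod.card,
        Fintype.card_fin]
    rw [h2] at h1
    exact h1
  have hlt : p < Nat.card W := by
    by_contra hle
    push Not at hle
    have h1 : p ^ (d + 2) ≤ p * d := by
      rw [← hcard]
      exact Nat.mul_le_mul hle hidx
    have h2 : d < p ^ (d + 1) := (Nat.lt_succ_self _).trans (Nat.lt_pow_self hp)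
    have h3 : p * d < p * p ^ (d + 1) := Nat.mul_lt_mul_of_pos_left h2 (by omega)
    rw [pow_succ, mul_comm] at h1
    omega
  have hfr : 1 < Module.finrank (ZMod p) W := by
    by_contra hle
    push Not at hle
    have h1 : Nat.card W = p ^ Module.finrank (ZMod p) W := by
      have h2 := Module.natCard_eq_pow_finrank (K := ZMod p) (V := W)
      rw [Nat.card_zmod] at h2
      exact h2
    have h2 : p ^ Module.finrank (ZMod p) W ≤ p ^ 1 := Nat.pow_le_pow_right (by omega) hle
    rw [h1] at hlt
    rw [pow_one] at h2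
    omega
  obtain ⟨w₁, w₂, hw⟩ : ∃ w₁ w₂ : W, LinearIndependent (ZMod p) ![w₁, w₂] := by
    obtain ⟨f, hf⟩ := exists_linearIndependent_of_le_finrank
      (show 2 ≤ Module.finrank (ZMod p) W from hfr)
    refine ⟨f 0, f 1, ?_⟩
    convert hf using 1
    funext a
    fin_cases a <;> rfl
  let ι : (ZMod p × ZMod p) →ₗ[ZMod p] (Fin (d + 2) → ZMod p) :=
    (LinearMap.fst _ _ _).smulRight (w₁ : Fin (d + 2) → ZMod p)
      + (LinearMap.snd _ _ _).smulRight (w₂ : Fin (d + 2) → ZMod p)
  have hι : ∀ y, ι y = y.1 • (w₁ : Fin (d + 2) → ZMod p)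
      + y.2 • (w₂ : Fin (d + 2) → ZMod p) := fun y => rfl
  have hker : LinearMap.ker ι = ⊥ := by
    rw [LinearMap.ker_eq_bot']
    intro y hy
    rw [hι] at hy
    have h1 : y.1 • w₁ + y.2 • w₂ = 0 := Subtype.ext hy
    obtain ⟨h2, h3⟩ := LinearIndependent.pair_iff.mp hw _ _ h1
    exact Prod.ext h2 h3
  obtain ⟨L, hL⟩ := LinearMap.exists_leftInverse_of_injective ι hker
  let f : G →* Multiplicative (ZMod p × ZMod p) :=
    (AddMonoidHom.toMultiplicative L.toAddMonoidHom).comp θ
  refine ⟨f, fun y => ?_⟩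
  have h1 : ι y.toAdd ∈ W := by
    rw [hι]
    exact W.add_mem (W.smul_mem _ w₁.2) (W.smul_mem _ w₂.2)
  rw [hW] at h1
  obtain ⟨v, hv, hv'⟩ := h1
  refine ⟨v, hv, ?_⟩
  apply Multiplicative.toAdd.injective
  change L ((θ v).toAdd) = y.toAdd
  have h2 : (θ v).toAdd = ι y.toAdd := congrArg Multiplicative.toAdd hv'
  rw [h2]
  exact LinearMap.congr_fun hL y.toAdd

/-- two independent characters of order `p` on the subgroup of a composite -/
theorem exists_mapF {S : Finset ℕ} (p : ℕ) [Fact p.Prime] {F : Type} [Field F] [NumberField F]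
    (k : Type) [Field k] [NumberField k] [Algebra F k] (hk : IsTestComposite S F k) :
    ∃ (K : Type) (_ : Field K) (_ : NumberField K) (_ : Algebra F K) (_ : IsGalois F K)
      (V : Subgroup (K ≃ₐ[F] K)) (f : (K ≃ₐ[F] K) →* Multiplicative (ZMod p × ZMod p)),
      (∀ U : Subgroup (K ≃ₐ[F] K), IsTestComposite S F (fixedField U)) ∧
      Nonempty (k ≃ₐ[F] fixedField V) ∧ V.index = Module.finrank F k ∧
      ∀ y, ∃ v ∈ V, f v = y := by
  classical
  obtain ⟨k₀, _, _, j₀, hk₀, hj₀⟩ := hk
  obtain ⟨E, _, _, _, hE, π, hπ⟩ := exists_elem S p (Module.finrank ℚ k + 2)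
  obtain ⟨N, _, _, _, hN, ⟨i⟩, ⟨i'⟩⟩ := exists_normal k₀ E hk₀ hE
  obtain ⟨K, _, _, _, _, j, φ, hinj, hφ⟩ := exists_comp_gen F N
  obtain ⟨e⟩ := exists_embed (F := F) (N₀ := N) j₀ hj₀ i j
  obtain ⟨V, hV, hVi⟩ := exists_subgroupF e
  let := i'.toRingHom.toAlgebra
  have htow : IsScalarTower ℚ E N := IsScalarTower.of_algebraMap_eq' i'.comp_algebraMap.symm
  let π' : (N ≃ₐ[ℚ] N) →* Multiplicative (Fin (Module.finrank ℚ k + 2) → ZMod p) :=
    π.comp (res E N)
  have hπ' : Function.Surjective π' := hπ.comp res_surj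
  have hfin : FiniteDimensional F K := Module.Finite.of_restrictScalars_finite ℚ F K
  have hfin' : FiniteDimensional F k := Module.Finite.of_restrictScalars_finite ℚ F k
  have hidx : (V.map (π'.comp φ)).index ≤ Module.finrank ℚ k := by
    have h1 : Nat.card V * (V.map φ).index = Module.finrank ℚ N := by
      rw [← IsGalois.card_aut_eq_finrank ℚ N, ← Subgroup.card_mul_index (V.map φ),
        Nat.card_congr (V.equivMapOfInjective φ hinj).toEquiv]
    have h2 : Nat.card V * Module.finrank F k = Module.finrank F K := by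
      rw [← IsGalois.card_aut_eq_finrank F K, ← Subgroup.card_mul_index V, hVi]
    have h3 : Module.finrank ℚ N ≤ Module.finrank ℚ K :=
      LinearMap.finrank_le_finrank_of_injective
        (f := (j.toRatAlgHom : N →ₐ[ℚ] K).toLinearMap) j.injective
    have h4 : Module.finrank ℚ F * Module.finrank F K = Module.finrank ℚ K :=
      Module.finrank_mul_finrank ℚ F K
    have h5 : Module.finrank ℚ F * Module.finrank F k = Module.finrank ℚ k :=
      Module.finrank_mul_finrank ℚ F k
    have h6 : (V.map φ).index ≤ Module.finrank ℚ k := by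
      have h7 : Nat.card V * (V.map φ).index ≤ Nat.card V * Module.finrank ℚ k := by
        rw [h1, ← h5]
        refine h3.trans ?_
        rw [← h4, ← h2]
        exact le_of_eq (by ring)
      exact Nat.le_of_mul_le_mul_left h7 Nat.card_pos
    rw [← Subgroup.map_map]
    refine (Nat.le_of_dvd ?_ (Subgroup.index_map_dvd (V.map φ) hπ')).trans h6
    exact Nat.pos_of_ne_zero Subgroup.index_ne_zero_of_finite
  obtain ⟨f, hf⟩ := exists_plane (π'.comp φ) V hidx
  exact ⟨K, inferInstance, inferInstance, inferInstance, inferInstance, V, f,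
    isTest_sub hN j φ hinj hφ, hV, hVi, hf⟩

section fn

variable {F : Type} [Field F] [NumberField F] {A : Type} [CommGroup A] {R : FFn F A}

lemma finrank_fixedF {K : Type} [Field K] [NumberField K] [Algebra F K] [IsGalois F K]
    (U : Subgroup (K ≃ₐ[F] K)) : Module.finrank F (fixedField U) = U.index := by
  have hfin : FiniteDimensional F K := Module.Finite.of_restrictScalars_finite ℚ F K
  rw [finrank_eq_fixingSubgroup_index, IntermediateField.fixingSubgroup_fixedField]

/-- **the `p`-th power of a value** is a product of values for extensions of larger degree -/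
theorem step_pF {S : Finset ℕ} {p : ℕ} (hp : p.Prime) (k : Type) [Field k] [NumberField k]
    [Algebra F k] (hk : IsTestComposite S F k) :
    R.v k ^ p ∈ Subgroup.closure {a : A | ∃ (k' : Type) (_ : Field k') (_ : NumberField k')
      (_ : Algebra F k'), IsTestComposite S F k' ∧
        p * Module.finrank F k ∣ Module.finrank F k' ∧ R.v k' = a} := by
  classical
  have : Fact p.Prime := ⟨hp⟩
  obtain ⟨N, _, _, _, _, V, f, hN, ⟨e⟩, hV, hf⟩ := exists_mapF p k hk
  have h1 : ∀ o : Option (ZMod p), ∀ b, ∃ v ∈ V, cmp f (func p o) v = b := by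
    intro o b
    obtain ⟨y, hy⟩ := func_surj p o b.toAdd
    obtain ⟨v, hv, hv'⟩ := hf (Multiplicative.ofAdd y)
    refine ⟨v, hv, ?_⟩
    apply Multiplicative.toAdd.injective
    change func p o ((f v).toAdd) = b.toAdd
    rw [hv']
    exact hy
  have hfin : FiniteDimensional F N := Module.Finite.of_restrictScalars_finite ℚ F N
  have c1 : Nat.card (Multiplicative (ZMod p)) = p := by
    rw [Nat.card_eq_fintype_card, Fintype.card_multiplicative, ZMod.card]
  have c2 : Nat.card (Multiplicative (ZMod p × ZMod p)) = p ^ 2 := by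
    rw [Nat.card_eq_fintype_card, Fintype.card_multiplicative, Fintype.card_prod, ZMod.card, pow_two]
  have h2 := (HW.ind (R := R) V).nsmul p
  have h3 := (HW.sum (R := R) Finset.univ (fun (o : Option (ZMod p)) _ =>
    HW.ind (R := R) (V ⊓ (cmp f (func p o)).ker))).sub (HW.ind (V ⊓ f.ker))
  have h4 : p • ind V (fun _ => (1 : ℂ))
      = ∑ o : Option (ZMod p), ind (V ⊓ (cmp f (func p o)).ker) (fun _ => (1 : ℂ))
        - ind (V ⊓ f.ker) (fun _ => (1 : ℂ)) := by
    funext g
    rw [Pi.smul_apply, nsmul_eq_mul, plane_rel V f hf g, Pi.sub_apply, Finset.sum_apply]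
  rw [h4] at h2
  have h5 := h2.unique h3
  have h6 : R.v k = R.v (fixedField V) := R.iso _ _ e
  rw [h6, h5]
  refine Subgroup.mul_mem _ (Subgroup.prod_mem _ fun o _ => ?_) (Subgroup.inv_mem _ ?_)
  · refine Subgroup.subset_closure ⟨_, inferInstance, inferInstance, inferInstance, hN _, ?_, rfl⟩
    rw [finrank_fixedF, index_inf_ker V _ (h1 o), c1, hV]
  · refine Subgroup.subset_closure ⟨_, inferInstance, inferInstance, inferInstance, hN _, ?_, rfl⟩
    rw [finrank_fixedF, index_inf_ker V _ hf, c2, hV]
    exact ⟨p, by ring⟩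

/-- from the degrees divisible by `D * N` to the degrees divisible by `D` -/
theorem killF {S : Finset ℕ} (N : ℕ) : N ≠ 0 → ∀ D M : ℕ,
    (∀ (k : Type) [Field k] [NumberField k] [Algebra F k], IsTestComposite S F k →
      D * N ∣ Module.finrank F k → R.v k ^ M = 1) →
    ∀ (k : Type) [Field k] [NumberField k] [Algebra F k], IsTestComposite S F k →
      D ∣ Module.finrank F k → R.v k ^ (M * N) = 1 := by
  induction N using Nat.strong_induction_on with
  | _ N ih =>
    intro hN D M h k _ _ _ hk hd
    rcases eq_or_ne N 1 with rfl | h1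
    · rw [mul_one]
      exact h k hk (by rwa [mul_one])
    · obtain ⟨N', hN'⟩ := Nat.minFac_dvd N
      have hp : N.minFac.Prime := Nat.minFac_prime h1
      have hN'0 : N' ≠ 0 := by
        rintro rfl
        rw [mul_zero] at hN'
        exact hN hN'
      have hlt : N' < N := by
        have h2 : N' < N.minFac * N' := by
          have := hp.one_lt
          nlinarith [Nat.pos_of_ne_zero hN'0]
        omega
      have h2 := ih N' hlt hN'0 (D * N.minFac) M (fun k' _ _ _ hk' hd' => h k' hk' (by
        rw [hN', ← mul_assoc]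
        exact hd'))
      have h3 := step_pF (R := R) hp k hk
      have h4 : Subgroup.closure {a : A | ∃ (k' : Type) (_ : Field k') (_ : NumberField k')
          (_ : Algebra F k'), IsTestComposite S F k' ∧
            N.minFac * Module.finrank F k ∣ Module.finrank F k' ∧ R.v k' = a}
          ≤ (powMonoidHom (M * N')).ker := by
        rw [Subgroup.closure_le]
        rintro a ⟨k', _, _, _, hk', hd', rfl⟩
        refine h2 k' hk' (dvd_trans ?_ hd')
        rw [mul_comm N.minFac]
        exact Nat.mul_dvd_mul_right hd _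
      have h5 : (R.v k ^ N.minFac) ^ (M * N') = 1 := h4 h3
      rw [← pow_mul] at h5
      rw [show M * N = N.minFac * (M * N') by
        conv_lhs => rw [hN']
        ring]
      exact h5

/-- **a value of one for enough degrees** -/
theorem one_F (k : Type) [Field k] [NumberField k] [Algebra F k]
    (h : ∀ l : ℕ, l.Prime → ∃ (N : ℕ) (S : Finset ℕ), ¬ l ∣ N ∧ IsTestComposite S F k ∧
      ∀ (k' : Type) [Field k'] [NumberField k'] [Algebra F k'], IsTestComposite S F k' →
        N ∣ Module.finrank F k' → R.v k' = 1) : R.v k = 1 := by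
  have h1 : ∀ l : ℕ, l.Prime → ∃ N : ℕ, ¬ l ∣ N ∧ R.v k ^ N = 1 := by
    intro l hl
    obtain ⟨N, S, hN, hk, h2⟩ := h l hl
    have hN0 : N ≠ 0 := by
      rintro rfl
      exact hN (dvd_zero l)
    refine ⟨N, hN, ?_⟩
    have h3 := killF (R := R) N hN0 1 1 (fun k' _ _ _ hk' hd' => by
      rw [pow_one]
      exact h2 k' hk' (by rwa [one_mul] at hd')) k hk (one_dvd _)
    rwa [one_mul] at h3
  by_contra hne
  have h2 : orderOf (R.v k) ≠ 1 := fun h3 => hne (orderOf_eq_one_iff.mp h3)
  obtain ⟨N, hN, h3⟩ := h1 _ (Nat.minFac_prime h2)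
  exact hN ((Nat.minFac_dvd _).trans (orderOf_dvd_of_pow_eq_one h3))

end fn

end Pool.Agent.K9h67.EW
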