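import Mathlib
import Pool.Agent.K9h67.EW.OverG
import Pool.Agent.K9h67.EW.AbD

/-!
# Composites of `F` with real abelian fields
-/

set_option autoImplicit false
set_option linter.unusedSectionVars false

open NumberField IntermediateField Polynomial Pool.Agent.R389 Pool.Agent.K4H74.ST
  Pool.Agent.K4H74.SC Pool.Agent.K9h41.DC Pool.Agent.K9h41.LD

namespace Pool.Agent.K9h67.EW

open Pool.Agent.K9h67.EV

/-- two embeddings of a Galois extension of `ℚ` have the same image -/
lemma exists_eq_of_galois {k₀ K : Type} [Field k₀] [NumberField k₀] [IsGalois ℚ k₀] [Field K]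
    [CharZero K] (σ τ : k₀ →+* K) (y : k₀) : ∃ y', σ y' = τ y := by
  have h1 := ((inferInstance : Normal ℚ k₀).splits y).map σ
  have h3 : ((minpoly ℚ y).map (algebraMap ℚ k₀)).map σ = (minpoly ℚ y).map (algebraMap ℚ K) := by
    rw [Polynomial.map_map]
    congr 1
    exact RingHom.ext_rat _ _
  have hne : (minpoly ℚ y).map (algebraMap ℚ K) ≠ 0 :=
    Polynomial.map_ne_zero (minpoly.ne_zero (Algebra.IsIntegral.isIntegral y))
  have h4 : τ y ∈ ((minpoly ℚ y).map (algebraMap ℚ K)).roots := by
    rw [mem_roots hne, IsRoot.def, eval_map_algebraMap]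
    have h5 := aeval_algHom_apply (τ.toRatAlgHom) y (minpoly ℚ y)
    rw [minpoly.aeval, map_zero] at h5
    exact h5
  rw [← h3, ((inferInstance : Normal ℚ k₀).splits y).roots_map σ] at h4
  obtain ⟨a, -, ha⟩ := Multiset.mem_map.1 h4
  exact ⟨a, ha⟩

/-- a quotient `(ℤ/p)²`, as `exists_plane`, through the elementary abelian group -/
lemma exists_plane' {p : ℕ} [Fact p.Prime] {G : Type} [Group G] {d : ℕ}
    (θ : G →* Multiplicative (Fin (d + 2) → ZMod p)) (V : Subgroup G)
    (hidx : (V.map θ).index ≤ d) :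
    ∃ f : Multiplicative (Fin (d + 2) → ZMod p) →* Multiplicative (ZMod p × ZMod p),
      ∀ y, ∃ v ∈ V, f (θ v) = y := by
  obtain ⟨f, hf⟩ := exists_plane (MonoidHom.id (Multiplicative (Fin (d + 2) → ZMod p))) (V.map θ)
    (by rwa [Subgroup.map_id])
  refine ⟨f, fun y => ?_⟩
  obtain ⟨x, ⟨v, hv, rfl⟩, h⟩ := hf y
  exact ⟨v, hv, h⟩

section sub

variable {F N K : Type} [Field F] [NumberField F] [Field N] [NumberField N] [IsGalois ℚ N]
  [Field K] [NumberField K] [Algebra F K] [IsGalois F K]

/-- the abelian subfields of `N` -/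
lemma abelian_sub {U : Subgroup (N ≃ₐ[ℚ] N)} (hU : ∀ g h, g * h * g⁻¹ * h⁻¹ ∈ U) :
    IsGalois ℚ (fixedField U) ∧
      ∀ σ τ : fixedField U ≃ₐ[ℚ] fixedField U, σ * τ = τ * σ := by
  have hn : U.Normal := by
    constructor
    intro u hu g
    have h1 := U.mul_mem (hU g u) hu
    rwa [inv_mul_cancel_right] at h1
  have hg : IsGalois ℚ (fixedField U) := IsGalois.of_fixedField_normal_subgroup U
  refine ⟨hg, fun σ τ => ?_⟩
  obtain ⟨g, rfl⟩ := (res_surj (N := fixedField U) (K := N)) σ
  obtain ⟨h, rfl⟩ := (res_surj (N := fixedField U) (K := N)) τ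
  have h1 : res (fixedField U) N (g * h * g⁻¹ * h⁻¹) = 1 := by
    rw [← MonoidHom.mem_ker, mem_ker]
    intro n
    exact n.2 ⟨_, hU g h⟩
  have h2 : g * h = (g * h * g⁻¹ * h⁻¹) * (h * g) := by group
  rw [← map_mul, h2, map_mul, h1, one_mul, map_mul]

/-- the intermediate fields of `K` which come from abelian subfields of `N` -/
theorem abelian_comp {S : Finset ℕ} (hN : TestField S N) (j : N →+* K)
    (φ : (K ≃ₐ[F] K) →* (N ≃ₐ[ℚ] N)) (hφ : ∀ g x, g (j x) = j (φ g x))
    {U : Subgroup (N ≃ₐ[ℚ] N)} (hU : ∀ g h, g * h * g⁻¹ * h⁻¹ ∈ U) :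
    IsAbelianComposite S F (fixedField (U.comap φ)) := by
  classical
  have hfin : FiniteDimensional F K := Module.Finite.of_restrictScalars_finite ℚ F K
  have hmem : ∀ x : fixedField U, j (x : N) ∈ fixedField (U.comap φ) := by
    intro x g
    change (g : K ≃ₐ[F] K) (j x) = j x
    rw [hφ]
    congr 1
    exact x.2 ⟨φ g, g.2⟩
  let j' : fixedField U →+* fixedField (U.comap φ) :=
    (j.comp (fixedField U).val.toRingHom).codRestrict (fixedField (U.comap φ)).toSubfield hmem
  obtain ⟨a1, a2⟩ := abelian_sub hU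
  refine ⟨fixedField U, inferInstance, inferInstance, j', hN.sub (fixedField U).val, a1, a2, ?_⟩
  apply IntermediateField.lift_injective (fixedField (U.comap φ))
  rw [IntermediateField.lift_top]
  refine le_antisymm (lift_le _) ?_
  have h1 : fixingSubgroup (lift (IntermediateField.adjoin F (Set.range j'))) ≤ U.comap φ := by
    intro g hg
    rw [IntermediateField.mem_fixingSubgroup_iff] at hg
    have h2 : φ g ∈ (fixedField U).fixingSubgroup := by
      rw [IntermediateField.mem_fixingSubgroup_iff]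
      intro x hx
      have h3 : j x ∈ lift (IntermediateField.adjoin F (Set.range j')) := by
        have h4 : (⟨j x, hmem ⟨x, hx⟩⟩ : fixedField (U.comap φ))
            ∈ IntermediateField.adjoin F (Set.range j') :=
          IntermediateField.subset_adjoin _ _ ⟨⟨x, hx⟩, rfl⟩
        exact (mem_lift (⟨j x, hmem ⟨x, hx⟩⟩ : fixedField (U.comap φ))).2 h4
      have h5 := hg _ h3
      rw [hφ] at h5
      exact j.injective h5
    rw [IntermediateField.fixingSubgroup_fixedField U] at h2
    exact h2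
  have h2 := IntermediateField.fixedField_antitone h1
  rw [IsGalois.fixedField_fixingSubgroup] at h2
  exact h2

/-- the subgroup of an embedded extension -/
lemma embed_spec {k : Type} [Field k] [NumberField k] [Algebra F k] (i : k →ₐ[F] K) :
    Nonempty (k ≃ₐ[F] fixedField i.fieldRange.fixingSubgroup) ∧
      i.fieldRange.fixingSubgroup.index = Module.finrank F k := by
  have hfin : FiniteDimensional F K := Module.Finite.of_restrictScalars_finite ℚ F K
  have h1 : fixedField i.fieldRange.fixingSubgroup = i.fieldRange :=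
    IsGalois.fixedField_fixingSubgroup _
  have e : k ≃ₐ[F] i.fieldRange := AlgEquiv.ofInjectiveField i
  have e' : k ≃ₐ[F] fixedField i.fieldRange.fixingSubgroup :=
    e.trans (IntermediateField.equivOfEq h1.symm)
  refine ⟨⟨e'⟩, ?_⟩
  rw [← finrank_eq_fixingSubgroup_index]
  exact e.toLinearEquiv.finrank_eq.symm

/-- the subgroup of an extension generated by a Galois subfield of `N` -/
lemma fixing_eq {k₀ k : Type} [Field k₀] [NumberField k₀] [IsGalois ℚ k₀] [Field k]
    [NumberField k] [Algebra F k] (j₀ : k₀ →+* k)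
    (hj₀ : IntermediateField.adjoin F (Set.range j₀) = ⊤) [Algebra k₀ N] [IsScalarTower ℚ k₀ N]
    (e : k →ₐ[F] K) (j : N →+* K) (φ : (K ≃ₐ[F] K) →* (N ≃ₐ[ℚ] N))
    (hφ : ∀ g x, g (j x) = j (φ g x)) :
    e.fieldRange.fixingSubgroup = ((res k₀ N).ker).comap φ := by
  have h0 : CharZero K := inferInstance
  ext g
  rw [IntermediateField.mem_fixingSubgroup_iff, Subgroup.mem_comap, mem_ker]
  constructor
  · intro hg y
    obtain ⟨y', hy'⟩ := exists_eq_of_galois ((e : k →+* K).comp j₀) (j.comp (algebraMap k₀ N)) y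
    have h1 : e (j₀ y') = j (algebraMap k₀ N y) := hy'
    have h2 := hg (e (j₀ y')) ⟨j₀ y', rfl⟩
    rw [h1, hφ] at h2
    exact j.injective h2
  · rintro hg _ ⟨x, rfl⟩
    change g (e x) = e x
    have hx : x ∈ IntermediateField.adjoin F (Set.range j₀) := by
      rw [hj₀]
      exact IntermediateField.mem_top
    induction hx using IntermediateField.adjoin_induction with
    | mem x hx =>
      obtain ⟨y, rfl⟩ := hx
      obtain ⟨y', hy'⟩ := exists_eq_of_galois (j.comp (algebraMap k₀ N)) ((e : k →+* K).comp j₀) y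
      have h1 : j (algebraMap k₀ N y') = e (j₀ y) := hy'
      rw [← h1, hφ, hg]
    | algebraMap x => rw [e.commutes, g.commutes]
    | add x y _ _ hx hy => rw [map_add, map_add, hx, hy]
    | inv x _ hx => rw [map_inv₀, map_inv₀, hx]
    | mul x y _ _ hx hy => rw [map_mul, map_mul, hx, hy]

end sub

/-- two independent characters of order `p` on the subgroup of a composite -/
theorem exists_mapA {S : Finset ℕ} (p : ℕ) [Fact p.Prime] {F : Type} [Field F] [NumberField F]
    (k : Type) [Field k] [NumberField k] [Algebra F k] (hk : IsAbelianComposite S F k) :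
    ∃ (K : Type) (_ : Field K) (_ : NumberField K) (_ : Algebra F K) (_ : IsGalois F K)
      (V : Subgroup (K ≃ₐ[F] K)) (f : (K ≃ₐ[F] K) →* Multiplicative (ZMod p × ZMod p)),
      (∀ U : Subgroup (K ≃ₐ[F] K), V ⊓ f.ker ≤ U → IsAbelianComposite S F (fixedField U)) ∧
      Nonempty (k ≃ₐ[F] fixedField V) ∧ V.index = Module.finrank F k ∧
      ∀ y, ∃ v ∈ V, f v = y := by
  classical
  obtain ⟨k₀, _, _, j₀, hk₀, hgal, hcom, hj₀⟩ := hk
  obtain ⟨E, _, _, _, hE, π, hπ⟩ := exists_elem S p (Module.finrank ℚ k + 2)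
  obtain ⟨N, _, _, _, hN, ⟨i⟩, ⟨i'⟩⟩ := exists_normal k₀ E hk₀ hE
  obtain ⟨K, _, _, _, _, j, φ, hinj, hφ⟩ := exists_comp_gen F N
  obtain ⟨e⟩ := exists_embed (F := F) (N₀ := N) j₀ hj₀ i j
  obtain ⟨hV, hVi⟩ := embed_spec e
  let := i.toRingHom.toAlgebra
  have htow₀ : IsScalarTower ℚ k₀ N := IsScalarTower.of_algebraMap_eq' i.comp_algebraMap.symm
  let := i'.toRingHom.toAlgebra
  have htow : IsScalarTower ℚ E N := IsScalarTower.of_algebraMap_eq' i'.comp_algebraMap.symm
  have hfix := fixing_eq (N := N) j₀ hj₀ e j φ hφ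
  set V := e.fieldRange.fixingSubgroup with hVdef
  let π' : (N ≃ₐ[ℚ] N) →* Multiplicative (Fin (Module.finrank ℚ k + 2) → ZMod p) :=
    π.comp (res E N)
  have hπ' : Function.Surjective π' := hπ.comp res_surj
  have hfin : FiniteDimensional F K := Module.Finite.of_restrictScalars_finite ℚ F K
  have hfin' : FiniteDimensional F k := Module.Finite.of_restrictScalars_finite ℚ F k
  have hidx : (V.map (π'.comp φ)).index ≤ Module.finrank ℚ k := by
    have h1 : Nat.card V * (V.map φ).index = Module.finrank ℚ N := by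
      rw [← IsGalois.card_aut_eq_finrank ℚ N, ← Subgroup.card_mul_index (V.map φ),
        Nat.card_congr (V.equivMapOfInjective φ hinj).toEquiv]
    have h2 : Nat.card V * Module.finrank F k = Module.finrank F K := by
      rw [← IsGalois.card_aut_eq_finrank F K, ← Subgroup.card_mul_index V, hVi]
    have h3 : Module.finrank ℚ N ≤ Module.finrank ℚ K :=
      LinearMap.finrank_le_finrank_of_injective
        (f := (j.toRatAlgHom : N →ₐ[ℚ] K).toLinearMap) j.injective
    have h4 : Module.finrank ℚ F * Module.finrank F K = Module.finrank ℚ K :=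
      Module.finrank_mul_finrank ℚ F K
    have h5 : Module.finrank ℚ F * Module.finrank F k = Module.finrank ℚ k :=
      Module.finrank_mul_finrank ℚ F k
    have h6 : (V.map φ).index ≤ Module.finrank ℚ k := by
      have h7 : Nat.card V * (V.map φ).index ≤ Nat.card V * Module.finrank ℚ k := by
        rw [h1, ← h5]
        refine h3.trans ?_
        rw [← h4, ← h2]
        exact le_of_eq (by ring)
      exact Nat.le_of_mul_le_mul_left h7 Nat.card_pos
    rw [← Subgroup.map_map]
    refine (Nat.le_of_dvd ?_ (Subgroup.index_map_dvd (V.map φ) hπ')).trans h6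
    exact Nat.pos_of_ne_zero Subgroup.index_ne_zero_of_finite
  obtain ⟨f, hf⟩ := exists_plane' (π'.comp φ) V hidx
  refine ⟨K, inferInstance, inferInstance, inferInstance, inferInstance, V,
    (f.comp π').comp φ, fun U hU => ?_, hV, hVi, hf⟩
  -- the subgroup with abelian quotient
  let U₁ : Subgroup (N ≃ₐ[ℚ] N) := (res k₀ N).ker ⊓ (f.comp π').ker
  have hU₁ : ∀ g h : N ≃ₐ[ℚ] N, g * h * g⁻¹ * h⁻¹ ∈ U₁ := by
    intro g h
    refine ⟨?_, ?_⟩
    · change res k₀ N (g * h * g⁻¹ * h⁻¹) = 1
      rw [map_mul, map_mul, map_mul, hcom (res k₀ N g) (res k₀ N h), map_inv, map_inv,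
        mul_inv_cancel_right, mul_inv_cancel]
    · change (f.comp π') (g * h * g⁻¹ * h⁻¹) = 1
      rw [map_mul, map_mul, map_mul, mul_comm ((f.comp π') g), map_inv, map_inv,
        mul_inv_cancel_right, mul_inv_cancel]
  have hcomap : V ⊓ ((f.comp π').comp φ).ker = U₁.comap φ := by
    rw [hfix, Subgroup.comap_inf]
    rfl
  have hUeq : U = (U₁ ⊔ U.map φ).comap φ := by
    have hn : U₁.Normal := by
      change ((res k₀ N).ker ⊓ (f.comp π').ker).Normal
      infer_instance
    refine le_antisymm (fun u hu => ?_) (fun u hu => ?_)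
    · exact (le_sup_right : U.map φ ≤ U₁ ⊔ U.map φ) (Subgroup.mem_map_of_mem φ hu)
    · obtain ⟨y, hy, z, ⟨v, hv, rfl⟩, hyz⟩ := Subgroup.mem_sup_of_normal_left.mp hu
      have h1 : u * v⁻¹ ∈ U₁.comap φ := by
        change φ (u * v⁻¹) ∈ U₁
        rw [map_mul, map_inv, ← hyz, mul_inv_cancel_right]
        exact hy
      rw [← hcomap] at h1
      have h2 := U.mul_mem (hU h1) hv
      rwa [inv_mul_cancel_right] at h2
  rw [hUeq]
  exact abelian_comp hN j φ hφ fun g h =>
    (le_sup_left : U₁ ≤ U₁ ⊔ U.map φ) (hU₁ g h)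

end Pool.Agent.K9h67.EW
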