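import Mathlib
import Pool.Agent.K9h67.EW.OverG

/-!
# Powers of the ratio of two successive critical values
-/

set_option autoImplicit false
set_option linter.unusedSectionVars false

open NumberField IntermediateField IsDedekindDomain Filter Topology Pool.Agent.R389
  Pool.Agent.K4H74.ST Pool.Agent.K4H74.SC Pool.Agent.K9h86.RT

namespace Pool.Agent.K9h67.EW

open Pool.Agent.K9h67.EV

variable {F : Type} [Field F] [NumberField F] {E : Type} [Field E] [CharZero E]
  {M : MotiveOver F E} {m : ℤ}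

/-- from the powers of the classes to the powers of the quotients -/
theorem pow_of_RR {k : Type} [Field k] [NumberField k] [Algebra F k] (hm : IsCritical M m)
    (hm' : IsCritical M (m + 1)) {g : ℕ} (h : RR M m k ^ g = 1) :
    PowerRatioEquality M k m g := by
  have h0 : LR M m k ^ g ∈ SR M m := by
    rw [← QuotientGroup.eq_one_iff, QuotientGroup.mk_pow]
    exact h
  obtain ⟨e, he, h1⟩ := h0
  obtain ⟨δ, hδ⟩ := isDelta_exists k
  obtain ⟨q, hq0, hq⟩ := tt_spec M k δ hδ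
  have hqE : (q : E) ≠ 0 := by exact_mod_cast hq0
  have hqC : (q : ℂ) ≠ 0 := by exact_mod_cast hq0
  have e1 := gam1 hm
  have e2 := gam2 hm'
  have e3 := tt_ne M
  have hn : ∀ s, Tendsto (fun s => (nrm M m s ^ Module.finrank F k) ^ g) (𝓝[≠] s)
      (𝓝 ((nrm M m s ^ Module.finrank F k) ^ g)) := fun s =>
    ((((nrm_an M m s).continuousAt.pow _).pow _).tendsto).mono_left nhdsWithin_le_nhds
  have hn0 : ∀ s, (nrm M m s ^ Module.finrank F k) ^ g ≠ 0 :=
    fun s => pow_ne_zero _ (pow_ne_zero _ (nrm_ne M m s))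
  refine ⟨e * (q : E)⁻¹ ^ g, mul_ne_zero he (pow_ne_zero _ (inv_ne_zero hqE)), δ, hδ, fun ι => ?_⟩
  obtain ⟨G, z, z', g1, g2, g3, g4, g5, g6⟩ := h1 ι
  refine ⟨fun s => G s / (nrm M m s ^ Module.finrank F k) ^ g,
    z / (nrm M m (m : ℂ) ^ Module.finrank F k) ^ g,
    z' / (nrm M m ((m : ℂ) + 1) ^ Module.finrank F k) ^ g, fun s => ?_, fun s hs => ?_,
    g4.div (hn _) (hn0 _), g5.div (hn _) (hn0 _), div_ne_zero g3 (hn0 _), ?_⟩
  · exact (g1 s).fun_div (((nrm_an M m s).meromorphicAt.fun_pow _).fun_pow _)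
  · have h2 := (hasProd_euler M ι (k := k) hs).map (powMonoidHom g) (continuous_pow g)
    have h3 : G s / (nrm M m s ^ Module.finrank F k) ^ g = Complex.exp (lg M ι k s) ^ g := by
      have h4 : (((LR M m k ^ g : (E →+* ℂ) → ℂ → ℂˣ) ι s : ℂˣ) : ℂ)
          = (Complex.exp (lg M ι k s) * nrm M m s ^ Module.finrank F k) ^ g := by
        rw [Pi.pow_apply, Pi.pow_apply, Units.val_pow_eq_pow_val, LR_val]
      rw [g2 s hs, h4, mul_pow, mul_div_cancel_right₀ _ (hn0 s)]
    change HasProd _ (G s / (nrm M m s ^ Module.finrank F k) ^ g)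
    rw [h3]
    exact h2
  · have h3 : ι (e * (q : E)⁻¹ ^ g) * ((Complex.I ^ (Module.finrank ℚ k / 2) * δ) ^ M.n) ^ g
        = ι e * (tt M ^ Module.finrank F k) ^ g := by
      rw [hq, map_mul, map_pow, map_inv₀, map_ratCast, mul_pow, inv_pow]
      field_simp
    rw [h3, g6, nrm_m, nrm_m' hm hm', one_pow, one_pow, div_one, tau, div_pow, mul_pow, div_pow,
      mul_pow]
    change ((gam M m ^ _) ^ g * _) / ((gam M ((m : ℂ) + 1) ^ _) ^ g * _) = _
    field_simp

/-- **powers of the ratio** -/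
theorem main_pow (hm : IsCritical M m) (hm' : IsCritical M (m + 1)) {g : ℕ} (hg : g ≠ 0)
    (h : ∀ l : ℕ, l.Prime → ∃ (N : ℕ) (S : Finset ℕ), (∀ j : ℕ, l ^ j ∣ N → l ^ j ∣ g) ∧
      ∀ (k : Type) [Field k] [NumberField k] [Algebra F k], IsTestComposite S F k →
        N ∣ Module.finrank F k → RatioEquality M k m) :
    PowerRatioEquality M F m g ∧ (g = 1 → RatioEquality M F m) := by
  have hF : ∀ S : Finset ℕ, IsTestComposite S F F := by
    intro S
    refine ⟨ℚ, inferInstance, inferInstance, algebraMap ℚ F, testField_rat S, ?_⟩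
    rw [eq_top_iff]
    intro x _
    exact (IntermediateField.adjoin F _).algebraMap_mem x
  have h1 : ∀ l : ℕ, l.Prime → ∃ N : ℕ, (∀ j : ℕ, l ^ j ∣ N → l ^ j ∣ g) ∧
      RR M m F ^ N = 1 := by
    intro l hl
    obtain ⟨N, S, hN, h2⟩ := h l hl
    have hN0 : N ≠ 0 := by
      rintro rfl
      have h3 := Nat.le_of_dvd (Nat.pos_of_ne_zero hg) (hN g (dvd_zero _))
      exact absurd (Nat.lt_pow_self hl.one_lt : g < l ^ g) (not_lt.mpr h3)
    refine ⟨N, hN, ?_⟩
    have h3 := killF (R := RF M m) N hN0 1 1 (fun k' _ _ _ hk' hd' => by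
      rw [pow_one]
      exact RR_of_ratio hm hm' (h2 k' hk' (by rwa [one_mul] at hd'))) F (hF S) (one_dvd _)
    rw [one_mul] at h3
    exact h3
  have h2 : RR M m F ^ g = 1 := by
    rw [← orderOf_dvd_iff_pow_eq_one, Nat.dvd_iff_prime_pow_dvd_dvd]
    intro l j hl hj
    obtain ⟨N, hN, h3⟩ := h1 l hl
    exact hN j (hj.trans (orderOf_dvd_of_pow_eq_one h3))
  refine ⟨pow_of_RR hm hm' h2, ?_⟩
  rintro rfl
  rw [pow_one] at h2
  exact ratio_of_RR hm hm' h2

end Pool.Agent.K9h67.EW
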