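import Mathlib
import Pool.Agent.K9h67.EW.AbA
import Pool.Agent.K9h67.EW.OverM

/-!
# Powers of the ratio of two successive critical values and base changes with abelian fields
-/

set_option autoImplicit false
set_option linter.unusedSectionVars false

open NumberField IntermediateField IsDedekindDomain Filter Topology Pool.Agent.R389
  Pool.Agent.K4H74.ST Pool.Agent.K4H74.SC Pool.Agent.K9h86.RT Pool.Agent.K9h41.DC
  Pool.Agent.K9h41.LD

namespace Pool.Agent.K9h67.EW

open Pool.Agent.K9h67.EV

section fn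

variable {F : Type} [Field F] [NumberField F] {A : Type} [CommGroup A] {R : FFn F A}

/-- **the `p`-th power of a value** is a product of values for extensions of larger degree -/
theorem step_pA {S : Finset ℕ} {p : ℕ} (hp : p.Prime) (k : Type) [Field k] [NumberField k]
    [Algebra F k] (hk : IsAbelianComposite S F k) :
    R.v k ^ p ∈ Subgroup.closure {a : A | ∃ (k' : Type) (_ : Field k') (_ : NumberField k')
      (_ : Algebra F k'), IsAbelianComposite S F k' ∧
        p * Module.finrank F k ∣ Module.finrank F k' ∧ R.v k' = a} := by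
  classical
  have : Fact p.Prime := ⟨hp⟩
  obtain ⟨N, _, _, _, _, V, f, hN, ⟨e⟩, hV, hf⟩ := exists_mapA p k hk
  have h1 : ∀ o : Option (ZMod p), ∀ b, ∃ v ∈ V, cmp f (func p o) v = b := by
    intro o b
    obtain ⟨y, hy⟩ := func_surj p o b.toAdd
    obtain ⟨v, hv, hv'⟩ := hf (Multiplicative.ofAdd y)
    refine ⟨v, hv, ?_⟩
    apply Multiplicative.toAdd.injective
    change func p o ((f v).toAdd) = b.toAdd
    rw [hv']
    exact hy
  have hker : ∀ o : Option (ZMod p), V ⊓ f.ker ≤ V ⊓ (cmp f (func p o)).ker := by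
    intro o g hg
    refine ⟨hg.1, ?_⟩
    have h2 : f g = 1 := hg.2
    change (AddMonoidHom.toMultiplicative (func p o)) (f g) = 1
    rw [h2, map_one]
  have hfin : FiniteDimensional F N := Module.Finite.of_restrictScalars_finite ℚ F N
  have c1 : Nat.card (Multiplicative (ZMod p)) = p := by
    rw [Nat.card_eq_fintype_card, Fintype.card_multiplicative, ZMod.card]
  have c2 : Nat.card (Multiplicative (ZMod p × ZMod p)) = p ^ 2 := by
    rw [Nat.card_eq_fintype_card, Fintype.card_multiplicative, Fintype.card_prod, ZMod.card, pow_two]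
  have h2 := (HW.ind (R := R) V).nsmul p
  have h3 := (HW.sum (R := R) Finset.univ (fun (o : Option (ZMod p)) _ =>
    HW.ind (R := R) (V ⊓ (cmp f (func p o)).ker))).sub (HW.ind (V ⊓ f.ker))
  have h4 : p • ind V (fun _ => (1 : ℂ))
      = ∑ o : Option (ZMod p), ind (V ⊓ (cmp f (func p o)).ker) (fun _ => (1 : ℂ))
        - ind (V ⊓ f.ker) (fun _ => (1 : ℂ)) := by
    funext g
    rw [Pi.smul_apply, nsmul_eq_mul, plane_rel V f hf g, Pi.sub_apply, Finset.sum_apply]
  rw [h4] at h2
  have h5 := h2.unique h3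
  have h6 : R.v k = R.v (fixedField V) := R.iso _ _ e
  rw [h6, h5]
  refine Subgroup.mul_mem _ (Subgroup.prod_mem _ fun o _ => ?_) (Subgroup.inv_mem _ ?_)
  · refine Subgroup.subset_closure ⟨_, inferInstance, inferInstance, inferInstance,
      hN _ (hker o), ?_, rfl⟩
    rw [finrank_fixedF, index_inf_ker V _ (h1 o), c1, hV]
  · refine Subgroup.subset_closure ⟨_, inferInstance, inferInstance, inferInstance,
      hN _ le_rfl, ?_, rfl⟩
    rw [finrank_fixedF, index_inf_ker V _ hf, c2, hV]
    exact ⟨p, by ring⟩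

/-- from the degrees divisible by `D * N` to the degrees divisible by `D` -/
theorem killA {S : Finset ℕ} (N : ℕ) : N ≠ 0 → ∀ D M : ℕ,
    (∀ (k : Type) [Field k] [NumberField k] [Algebra F k], IsAbelianComposite S F k →
      D * N ∣ Module.finrank F k → R.v k ^ M = 1) →
    ∀ (k : Type) [Field k] [NumberField k] [Algebra F k], IsAbelianComposite S F k →
      D ∣ Module.finrank F k → R.v k ^ (M * N) = 1 := by
  induction N using Nat.strong_induction_on with
  | _ N ih =>
    intro hN D M h k _ _ _ hk hd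
    rcases eq_or_ne N 1 with rfl | h1
    · rw [mul_one]
      exact h k hk (by rwa [mul_one])
    · obtain ⟨N', hN'⟩ := Nat.minFac_dvd N
      have hp : N.minFac.Prime := Nat.minFac_prime h1
      have hN'0 : N' ≠ 0 := by
        rintro rfl
        rw [mul_zero] at hN'
        exact hN hN'
      have hlt : N' < N := by
        have h2 : N' < N.minFac * N' := by
          have := hp.one_lt
          nlinarith [Nat.pos_of_ne_zero hN'0]
        omega
      have h2 := ih N' hlt hN'0 (D * N.minFac) M (fun k' _ _ _ hk' hd' => h k' hk' (by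
        rw [hN', ← mul_assoc]
        exact hd'))
      have h3 := step_pA (R := R) hp k hk
      have h4 : Subgroup.closure {a : A | ∃ (k' : Type) (_ : Field k') (_ : NumberField k')
          (_ : Algebra F k'), IsAbelianComposite S F k' ∧
            N.minFac * Module.finrank F k ∣ Module.finrank F k' ∧ R.v k' = a}
          ≤ (powMonoidHom (M * N')).ker := by
        rw [Subgroup.closure_le]
        rintro a ⟨k', _, _, _, hk', hd', rfl⟩
        refine h2 k' hk' (dvd_trans ?_ hd')
        rw [mul_comm N.minFac]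
        exact Nat.mul_dvd_mul_right hd _
      have h5 : (R.v k ^ N.minFac) ^ (M * N') = 1 := h4 h3
      rw [← pow_mul] at h5
      rw [show M * N = N.minFac * (M * N') by
        conv_lhs => rw [hN']
        ring]
      exact h5

end fn

lemma galois_rat : @IsGalois ℚ _ ℚ _ DivisionRing.toRatAlgebra := by
  have h : (DivisionRing.toRatAlgebra : Algebra ℚ ℚ) = Algebra.id ℚ := Subsingleton.elim _ _
  rw [h]
  exact IsGalois.self ℚ

lemma comm_rat (σ τ : @AlgEquiv ℚ ℚ ℚ _ _ _ DivisionRing.toRatAlgebra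
    DivisionRing.toRatAlgebra) : σ * τ = τ * σ := by
  ext x
  exact congrArg (fun f : ℚ →+* ℚ => f x) (RingHom.ext_rat ((σ * τ : ℚ ≃ₐ[ℚ] ℚ) : ℚ →+* ℚ)
    ((τ * σ : ℚ ≃ₐ[ℚ] ℚ) : ℚ →+* ℚ))

variable {F : Type} [Field F] [NumberField F] {E : Type} [Field E] [CharZero E]
  {M : MotiveOver F E} {m : ℤ}

/-- **powers of the ratio** -/
theorem main_powA (hm : IsCritical M m) (hm' : IsCritical M (m + 1)) {g : ℕ} (hg : g ≠ 0)
    (h : ∀ l : ℕ, l.Prime → ∃ (N : ℕ) (S : Finset ℕ), (∀ j : ℕ, l ^ j ∣ N → l ^ j ∣ g) ∧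
      ∀ (k : Type) [Field k] [NumberField k] [Algebra F k], IsAbelianComposite S F k →
        N ∣ Module.finrank F k → RatioEquality M k m) :
    PowerRatioEquality M F m g ∧ (g = 1 → RatioEquality M F m) := by
  have hF : ∀ S : Finset ℕ, IsAbelianComposite S F F := by
    intro S
    refine ⟨ℚ, inferInstance, inferInstance, algebraMap ℚ F, testField_rat S, galois_rat,
      comm_rat, ?_⟩
    rw [eq_top_iff]
    intro x _
    exact (IntermediateField.adjoin F _).algebraMap_mem x
  have h1 : ∀ l : ℕ, l.Prime → ∃ N : ℕ, (∀ j : ℕ, l ^ j ∣ N → l ^ j ∣ g) ∧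
      RR M m F ^ N = 1 := by
    intro l hl
    obtain ⟨N, S, hN, h2⟩ := h l hl
    have hN0 : N ≠ 0 := by
      rintro rfl
      have h3 := Nat.le_of_dvd (Nat.pos_of_ne_zero hg) (hN g (dvd_zero _))
      exact absurd (Nat.lt_pow_self hl.one_lt : g < l ^ g) (not_lt.mpr h3)
    refine ⟨N, hN, ?_⟩
    have h3 := killA (R := RF M m) N hN0 1 1 (fun k' _ _ _ hk' hd' => by
      rw [pow_one]
      exact RR_of_ratio hm hm' (h2 k' hk' (by rwa [one_mul] at hd'))) F (hF S) (one_dvd _)
    rw [one_mul] at h3
    exact h3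
  have h2 : RR M m F ^ g = 1 := by
    rw [← orderOf_dvd_iff_pow_eq_one, Nat.dvd_iff_prime_pow_dvd_dvd]
    intro l j hl hj
    obtain ⟨N, hN, h3⟩ := h1 l hl
    exact hN j (hj.trans (orderOf_dvd_of_pow_eq_one h3))
  refine ⟨pow_of_RR hm hm' h2, ?_⟩
  rintro rfl
  rw [pow_one] at h2
  exact ratio_of_RR hm hm' h2

end Pool.Agent.K9h67.EW
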