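import Mathlib
import Pool.Agent.K9h67.EV.Uni
import Pool.Agent.K9h67.EW.Rl

/-!
# Ratios of critical values and base changes of a degree divisible by a power of two
-/

set_option autoImplicit false
set_option linter.unusedSectionVars false

open NumberField IntermediateField IsDedekindDomain Filter Topology Pool.Agent.R389
  Pool.Agent.K4H74.ST Pool.Agent.K4H74.SC Pool.Agent.K9h86.RT

namespace Pool.Agent.K9h67.EW

open Pool.Agent.K9h67.EV

/-- `k` is a test extension of `F`: it is the composite of `F` and of a test field `k₀`, and the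
degree of `k` over `F` is that of `k₀` over `ℚ`. -/
def IsTestExtension (S : Finset ℕ) (F k : Type) [Field F] [Field k] [NumberField k]
    [Algebra F k] : Prop :=
  ∃ (k₀ : Type) (_ : Field k₀) (_ : NumberField k₀), TestField S k₀ ∧ IsComp F k₀ k

section

variable {F : Type} [Field F] [NumberField F] {S : Finset ℕ}

/-- the test fields are disjoint from `F` -/
lemma disj (hS : ∀ L : IntermediateField ℚ F, TestField S L → L = ⊥) {K₀ : Type} [Field K₀]
    [NumberField K₀] (hK : TestField S K₀) (T : IntermediateField ℚ K₀)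
    (h : Nonempty (T →+* F)) : T = ⊥ := by
  obtain ⟨i⟩ := h
  let i' : T →ₐ[ℚ] F := i.toRatAlgHom
  have e : T ≃ₐ[ℚ] i'.fieldRange := AlgEquiv.ofInjectiveField i'
  have h1 : i'.fieldRange = ⊥ := hS _ ((hK.sub T.val).sub (e.symm : i'.fieldRange →ₐ[ℚ] T))
  have h2 : Module.finrank ℚ T = 1 := by
    rw [e.toLinearEquiv.finrank_eq, h1, IntermediateField.finrank_bot]
  exact IntermediateField.finrank_eq_one_iff.mp h2

lemma exists_isComp (hS : ∀ L : IntermediateField ℚ F, TestField S L → L = ⊥) (k₀ : Type)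
    [Field k₀] [NumberField k₀] (hk₀ : TestField S k₀) :
    ∃ (k : Type) (_ : Field k) (_ : NumberField k) (_ : Algebra F k), IsComp F k₀ k := by
  obtain ⟨N, _, _, _, hN, ⟨i⟩, -⟩ := exists_normal k₀ k₀ hk₀ hk₀
  obtain ⟨V, ⟨e⟩, -⟩ := exists_subgroup i
  obtain ⟨K, _, _, _, hgal, j, φ, hφ⟩ := Pool.Agent.K9h76.LB.exists_comp (F := F) (K₀ := N)
    (disj hS hN)
  exact ⟨_, inferInstance, inferInstance, inferInstance,
    (isComp_sub j φ hφ V).congr e.symm⟩

end

section vv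

variable {F : Type} [Field F] [NumberField F] {E : Type} [Field E] [CharZero E]
  (M : MotiveOver F E) (m : ℤ)

open Classical in
/-- the class of the L-function over the composite of `F` and `k₀` -/
noncomputable def vv (k₀ : Type) [Field k₀] [NumberField k₀] :
    ((E →+* ℂ) → ℂ → ℂˣ) ⧸ SR M m :=
  if h : ∃ a, ∃ (k : Type) (_ : Field k) (_ : NumberField k) (_ : Algebra F k),
    IsComp F k₀ k ∧ RR M m k = a then h.choose else 1

variable {M m}

lemma vv_eq {k₀ k : Type} [Field k₀] [NumberField k₀] [Field k] [NumberField k] [Algebra F k]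
    (h : IsComp F k₀ k) : vv M m k₀ = RR M m k := by
  have h1 : ∃ a, ∃ (k : Type) (_ : Field k) (_ : NumberField k) (_ : Algebra F k),
      IsComp F k₀ k ∧ RR M m k = a :=
    ⟨_, k, inferInstance, inferInstance, inferInstance, h, rfl⟩
  rw [vv, dif_pos h1]
  obtain ⟨k', _, _, _, h2, h3⟩ := h1.choose_spec
  obtain ⟨e⟩ := comp_equiv h2 h
  exact h3.symm.trans (RR_iso e)

lemma vv_iso {k₀ k₀' : Type} [Field k₀] [NumberField k₀] [Field k₀'] [NumberField k₀']
    (e : k₀ ≃+* k₀') : vv M m k₀ = vv M m k₀' := by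
  by_cases h : ∃ (k : Type) (_ : Field k) (_ : NumberField k) (_ : Algebra F k), IsComp F k₀ k
  · obtain ⟨k, _, _, _, hk⟩ := h
    rw [vv_eq hk, vv_eq (hk.congr e)]
  · rw [vv, vv, dif_neg, dif_neg]
    · rintro ⟨a, k, _, _, _, hk, -⟩
      exact h ⟨k, inferInstance, inferInstance, inferInstance, hk.congr e.symm⟩
    · rintro ⟨a, k, _, _, _, hk, -⟩
      exact h ⟨k, inferInstance, inferInstance, inferInstance, hk⟩

variable (M m)

/-- the classes respect the relations -/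
noncomputable def VW {S : Finset ℕ} (hS : ∀ L : IntermediateField ℚ F, TestField S L → L = ⊥) :
    ArtinFn S (((E →+* ℂ) → ℂ → ℂˣ) ⧸ SR M m) where
  v k₀ _ _ := vv M m k₀
  iso _ _ _ _ _ _ e := vv_iso e
  rel K₀ _ _ _ _ hK V c h := by
    classical
    obtain ⟨K, _, _, _, hgal, j, φ, hφ⟩ := Pool.Agent.K9h76.LB.exists_comp (F := F) (K₀ := K₀)
      (disj hS hK)
    have hfin : FiniteDimensional F K := Module.Finite.of_restrictScalars_finite ℚ F K
    have : Fintype (Subgroup (K ≃ₐ[F] K)) := Fintype.ofFinite _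
    have h1 : ∀ U : Subgroup (K₀ ≃ₐ[ℚ] K₀),
        vv M m (fixedField U) = RR M m (fixedField (U.comap φ.toMonoidHom)) :=
      fun U => vv_eq (isComp_sub j φ hφ U)
    let Ψ : Subgroup (K ≃ₐ[F] K) ≃ Subgroup (K₀ ≃ₐ[ℚ] K₀) := φ.mapSubgroup.toEquiv
    have hΨ : ∀ U', (Ψ U').comap φ.toMonoidHom = U' := fun U' =>
      Subgroup.comap_map_eq_self_of_injective φ.injective U'
    have h2 := RR_rel (M := M) (m := m) (V := V.comap φ.toMonoidHom) (c := fun U' => c (Ψ U'))
      (fun g => by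
        rw [ind_comap, ← h (φ g), ← Equiv.sum_comp Ψ]
        refine Finset.sum_congr rfl fun U' _ => ?_
        rw [← ind_comap φ (Ψ U') g, hΨ])
    rw [h1, ← h2, ← Equiv.prod_comp Ψ]
    refine Finset.prod_congr rfl fun U' _ => ?_
    rw [h1 (Ψ U'), hΨ]

end vv

section fin

variable {F : Type} [Field F] [NumberField F] {E : Type} [Field E] [CharZero E]
  {M : MotiveOver F E} {m : ℤ}

/-- the quotient over `F` from its `N`-th power -/
theorem root_of {N : ℕ} (hN : N ≠ 0) (hm : IsCritical M m) (hm' : IsCritical M (m + 1))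
    (hM : ∀ ι : E →+* ℂ, ∃ f : ℂ → ℂ, IsL M ι F f) (h : RR M m F ^ N = 1) :
    ∃ (x : E) (R : (E →+* ℂ) → ℂ), x ≠ 0 ∧ ∀ ι, HasRatio M ι F m (R ι) ∧
      R ι ^ N = ι x * tt M ^ N := by
  rw [RR, ← QuotientGroup.mk_pow, QuotientGroup.eq_one_iff] at h
  obtain ⟨e, he, h1⟩ := h
  have h2 : ∀ ι : E →+* ℂ, ∃ R : ℂ, HasRatio M ι F m R ∧ R ^ N = ι e * tt M ^ N := by
    intro ι
    obtain ⟨f, f1, f2⟩ := hM ι
    obtain ⟨g, z, z', g1, g2, g3, g4, g5, g6⟩ := h1 ι
    have hz : z ≠ 0 := by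
      rw [g6]
      exact mul_ne_zero ((map_ne_zero ι).mpr he) g3
    let G : ℂ → ℂ := fun s => f s * nrm M m s ^ Module.finrank F F
    have hG : ∀ s : ℂ, MeromorphicAt G s := fun s =>
      (f1 s).fun_mul ((nrm_an M m s).meromorphicAt.fun_pow _)
    have hG2 : ∀ s : ℂ, 1 + (M.w : ℝ) / 2 < s.re → G s = LR M m F ι s := by
      intro s hs
      change f s * nrm M m s ^ Module.finrank F F = _
      rw [LR_val, (f2 s hs).unique (hasProd_euler M ι hs)]
    have key : ∀ p : ℂ, (m : ℝ) ≤ p.re → ∀ y : ℂ, y ≠ 0 → Tendsto g (𝓝[≠] p) (𝓝 y) →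
        ∃ r : ℂ, r ≠ 0 ∧ Tendsto G (𝓝[≠] p) (𝓝 r) ∧ r ^ N = y := by
      intro p hp y hy hgy
      have h3 : (G ^ N) =ᶠ[𝓝[≠] p] g := by
        refine uni (m := m) (σ := 1 + (M.w : ℝ) / 2) (fun s _ => (hG s).pow N)
          (fun s _ => g1 s) (fun s hs => ?_) hp
        rw [g2 s hs, Pi.pow_apply, Pi.pow_apply, Pi.pow_apply, Units.val_pow_eq_pow_val, hG2 s hs]
      have h4 : Tendsto (G ^ N) (𝓝[≠] p) (𝓝 y) := hgy.congr' h3.symm
      have h5 : meromorphicOrderAt (G ^ N) p = 0 :=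
        (tendsto_ne_zero_iff_meromorphicOrderAt_eq_zero ((hG p).pow N)).mp ⟨y, hy, h4⟩
      rw [meromorphicOrderAt_pow (hG p)] at h5
      have h6 : meromorphicOrderAt G p = 0 := by
        rcases mul_eq_zero.mp h5 with h7 | h7
        · exact absurd (by exact_mod_cast h7) hN
        · exact h7
      obtain ⟨r, hr0, hr⟩ := (tendsto_ne_zero_iff_meromorphicOrderAt_eq_zero (hG p)).mpr h6
      exact ⟨r, hr0, hr, tendsto_nhds_unique (hr.pow N) h4⟩
    obtain ⟨r, hr0, hr, hrN⟩ := key (m : ℂ) (by simp) z hz g4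
    obtain ⟨r', hr0', hr', hrN'⟩ := key ((m : ℂ) + 1) (by simp) z' g3 g5
    refine ⟨_, hasRatio_of hm hm' hG hG2 hr0' hr hr', ?_⟩
    rw [Module.finrank_self, pow_one, mul_pow, div_pow, hrN, hrN', g6,
      mul_div_cancel_right₀ _ g3]
  choose R hR using h2
  exact ⟨e, R, he, hR⟩

/-- the quotient over an extension from the classes -/
theorem value_of {k : Type} [Field k] [NumberField k] [Algebra F k] (hm : IsCritical M m)
    (hm' : IsCritical M (m + 1)) (h : RR M m k = RR M m F ^ Module.finrank F k)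
    {R : (E →+* ℂ) → ℂ} (hR : ∀ ι, HasRatio M ι F m (R ι)) :
    ∃ e : E, e ≠ 0 ∧ ∀ ι : E →+* ℂ, HasRatio M ι k m (ι e * R ι ^ Module.finrank F k) := by
  rw [eq_comm, RR, RR, ← QuotientGroup.mk_pow, QuotientGroup.eq] at h
  obtain ⟨e, he, h1⟩ := h
  refine ⟨e, he, fun ι => ?_⟩
  obtain ⟨f, y, y', f1, f2, f3, f4, f5, f6⟩ := of_hasRatio hm hm' (hR ι)
  obtain ⟨g, z, z', g1, g2, g3, g4, g5, g6⟩ := h1 ι
  have h2 := hasRatio_of (k := k) (M := M) (ι := ι)
    (g := fun s => g s * f s ^ Module.finrank F k) hm hm'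
    (fun s => (g1 s).fun_mul ((f1 s).fun_pow _)) (fun s hs => ?_)
    (mul_ne_zero g3 (pow_ne_zero (Module.finrank F k) f3)) (g4.mul (f4.pow _)) (g5.mul (f5.pow _))
  · rw [← f6, Module.finrank_self, pow_one]
    have h3 : z * y ^ Module.finrank F k / (z' * y' ^ Module.finrank F k)
        * tt M ^ Module.finrank F k = ι e * (y / y' * tt M) ^ Module.finrank F k := by
      rw [g6, mul_pow, div_pow]
      field_simp
    rw [← h3]
    exact h2
  · have h7 : (((LR M m F ^ Module.finrank F k)⁻¹ * LR M m k : (E →+* ℂ) → ℂ → ℂˣ) ι s : ℂ)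
        = ((LR M m F ι s : ℂ) ^ Module.finrank F k)⁻¹ * (LR M m k ι s : ℂ) := by
      rw [Pi.mul_apply, Pi.mul_apply, Units.val_mul, Pi.inv_apply, Pi.inv_apply,
        Units.val_inv_eq_inv_val, Pi.pow_apply, Pi.pow_apply, Units.val_pow_eq_pow_val]
    rw [g2 s hs, h7, f2 s hs]
    have h8 : (LR M m F ι s : ℂ) ^ Module.finrank F k ≠ 0 := pow_ne_zero _ (Units.ne_zero _)
    field_simp

/-- **base changes of a degree divisible by `2 ^ a`** -/
theorem main_ew (M : MotiveOver F E) {m : ℤ} (hm : IsCritical M m) (hm' : IsCritical M (m + 1))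
    (a : ℕ) (S : Finset ℕ) (hS : ∀ L : IntermediateField ℚ F, TestField S L → L = ⊥)
    (hD : ∀ (k : Type) [Field k] [NumberField k] [Algebra F k], IsTestExtension S F k →
      2 ^ a ∣ Module.finrank F k → RatioEquality M k m) :
    (∀ (k₁ : Type) [Field k₁] [NumberField k₁] [Algebra F k₁], IsTestExtension S F k₁ →
      Odd (Module.finrank F k₁) → RatioEquality M k₁ m →
        ∀ (k : Type) [Field k] [NumberField k] [Algebra F k], IsTestExtension S F k →
          RatioEquality M k m) ∧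
    ((∀ ι : E →+* ℂ, ∃ f : ℂ → ℂ, IsL M ι F f) →
      ∃ (x : E) (R : (E →+* ℂ) → ℂ) (δ : ℂ), x ≠ 0 ∧ IsDelta F δ ∧
        (∀ ι, HasRatio M ι F m (R ι) ∧ R ι ^ 2 ^ a
          = ι x * ((Complex.I ^ (Module.finrank ℚ F / 2) * δ) ^ M.n) ^ 2 ^ a) ∧
        ∀ (k : Type) [Field k] [NumberField k] [Algebra F k], IsTestExtension S F k →
          ∃ e : E, e ≠ 0 ∧ ∀ ι : E →+* ℂ, HasRatio M ι k m (ι e * R ι ^ Module.finrank F k)) := by
  have hV : ∀ (k₀ : Type) [Field k₀] [NumberField k₀], TestField S k₀ →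
      2 ^ a ∣ Module.finrank ℚ k₀ → (VW M m hS).v k₀ = 1 := by
    intro k₀ _ _ hk₀ hd
    obtain ⟨k, _, _, _, hk⟩ := exists_isComp hS k₀ hk₀
    have h1 : (VW M m hS).v k₀ = RR M m k := vv_eq hk
    rw [h1]
    refine RR_of_ratio hm hm' (hD k ⟨k₀, inferInstance, inferInstance, hk₀, hk⟩ ?_)
    obtain ⟨-, h2, -⟩ := hk
    rwa [← h2]
  obtain ⟨h1, h2⟩ := abs_two a hV
  have hQ : (VW M m hS).v ℚ = RR M m F := vv_eq isComp_rat
  rw [hQ] at h1
  have h3 : ∀ (k : Type) [Field k] [NumberField k] [Algebra F k], IsTestExtension S F k →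
      RR M m k = RR M m F ^ Module.finrank F k := by
    intro k _ _ _ hk
    obtain ⟨k₀, _, _, hk₀, hc⟩ := hk
    have h4 : (VW M m hS).v k₀ = RR M m k := vv_eq hc
    have h5 := h2 k₀ hk₀
    rw [h4, hQ] at h5
    obtain ⟨-, h6, -⟩ := hc
    rw [h5, h6]
  constructor
  · intro k₁ _ _ _ hk₁ hodd hr k _ _ _ hk
    have h4 := RR_of_ratio hm hm' hr
    rw [h3 k₁ hk₁] at h4
    have h5 : RR M m F = 1 := by
      have h5 : orderOf (RR M m F) ∣ 2 ^ a := orderOf_dvd_of_pow_eq_one h1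
      have h6 : orderOf (RR M m F) ∣ Module.finrank F k₁ := orderOf_dvd_of_pow_eq_one h4
      have h7 : (2 ^ a).Coprime (Module.finrank F k₁) := (Nat.coprime_two_left.mpr hodd).pow_left a
      exact orderOf_eq_one_iff.mp (Nat.eq_one_of_dvd_coprimes h7 h5 h6)
    refine ratio_of_RR hm hm' ?_
    rw [h3 k hk, h5, one_pow]
  · intro hM
    obtain ⟨x, R, hx, hR⟩ := root_of (pow_ne_zero a two_ne_zero) hm hm' hM h1
    obtain ⟨δ, hδ⟩ := isDelta_exists F
    obtain ⟨q, hq0, hq⟩ := tt_spec M F δ hδ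
    have hqE : (q : E) ≠ 0 := by exact_mod_cast hq0
    have hqC : (q : ℂ) ≠ 0 := by exact_mod_cast hq0
    refine ⟨x * ((q : E) ^ 2 ^ a)⁻¹, R, δ, mul_ne_zero hx (inv_ne_zero (pow_ne_zero _ hqE)), hδ,
      fun ι => ⟨(hR ι).1, ?_⟩, fun k _ _ _ hk => value_of hm hm' (h3 k hk) fun ι => (hR ι).1⟩
    rw [(hR ι).2, hq, Module.finrank_self, pow_one, map_mul, map_inv₀, map_pow, map_ratCast,
      mul_pow]
    field_simp

end fin

end Pool.Agent.K9h67.EW
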