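import Mathlib
import Pool.Agent.K9h67.EW.Mn
import Pool.Agent.K9h67.EW.Mul

/-!
# Ratios of critical values: base changes of degrees prime to each prime number
-/

set_option autoImplicit false
set_option linter.unusedSectionVars false

open NumberField IntermediateField IsDedekindDomain Filter Topology Pool.Agent.R389
  Pool.Agent.K4H74.ST Pool.Agent.K4H74.SC Pool.Agent.K9h86.RT

namespace Pool.Agent.K9h67.EW

open Pool.Agent.K9h67.EV

theorem main_sp {F : Type} [Field F] [NumberField F] {E : Type} [Field E] [CharZero E]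
    (M : MotiveOver F E) {m : ℤ} (hm : IsCritical M m) (hm' : IsCritical M (m + 1))
    (S : Finset ℕ) (hS : ∀ L : IntermediateField ℚ F, TestField S L → L = ⊥)
    (h : ∀ l : ℕ, l.Prime → ∃ N : ℕ, ¬ l ∣ N ∧
      ∀ (k : Type) [Field k] [NumberField k] [Algebra F k], IsTestExtension S F k →
        N ∣ Module.finrank F k → RatioEquality M k m)
    (k : Type) [Field k] [NumberField k] [Algebra F k] (hk : IsTestExtension S F k) :
    RatioEquality M k m := by
  obtain ⟨k₀, _, _, hk₀, hc⟩ := hk
  have h1 : (VW M m hS).v k₀ = 1 := by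
    refine all_one (F := VW M m hS) (fun l hl => ?_) k₀ hk₀
    obtain ⟨N, hN, h2⟩ := h l hl
    refine ⟨N, hN, fun k' _ _ hk' hd => ?_⟩
    obtain ⟨k'', _, _, _, hk''⟩ := exists_isComp hS k' hk'
    have h3 : (VW M m hS).v k' = RR M m k'' := vv_eq hk''
    rw [h3]
    refine RR_of_ratio hm hm' (h2 k'' ⟨k', inferInstance, inferInstance, hk', hk''⟩ ?_)
    obtain ⟨-, h4, -⟩ := hk''
    rwa [← h4]
  have h2 : (VW M m hS).v k₀ = RR M m k := vv_eq hc
  exact ratio_of_RR hm hm' (h2.symm.trans h1)

end Pool.Agent.K9h67.EW
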