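import Mathlib
import Pool.Agent.K9h67.EW.Mul

/-!
# Functions of the test fields: degrees prime to each odd prime number
-/

set_option autoImplicit false
set_option linter.unusedSectionVars false

open NumberField IntermediateField Pool.Agent.R389 Pool.Agent.K4H74.ST Pool.Agent.K4H74.SC

namespace Pool.Agent.K9h67.EW

open Pool.Agent.K9h67.EV

/-- a value of one for the degrees divisible by a power of two -/
theorem all_two {S : Finset ℕ} {A : Type} [CommGroup A] {F : ArtinFn S A} (a : ℕ)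
    (h : ∀ l : ℕ, l.Prime → l ≠ 2 → ∃ N : ℕ, ¬ l ∣ N ∧ ¬ 2 ^ (a + 1) ∣ N ∧
      ∀ (k : Type) [Field k] [NumberField k], TestField S k → N ∣ Module.finrank ℚ k →
        F.v k = 1) (k : Type) [Field k] [NumberField k] (hk : TestField S k)
    (hd : 2 ^ a ∣ Module.finrank ℚ k) : F.v k = 1 := by
  have h1 : ∀ l : ℕ, l.Prime → l ≠ 2 → ∃ N : ℕ, ¬ l ∣ N ∧ Odd N ∧ F.v k ^ N = 1 := by
    intro l hl hl2
    obtain ⟨N, hN, hN2, h2⟩ := h l hl hl2
    have hN0 : N ≠ 0 := by
      rintro rfl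
      exact hN (dvd_zero l)
    obtain ⟨b, N', hodd, hN'⟩ := Nat.exists_eq_two_pow_mul_odd hN0
    have hb : b ≤ a := by
      by_contra hb
      push Not at hb
      exact hN2 (hN' ▸ Dvd.dvd.mul_right (pow_dvd_pow 2 (by omega)) N')
    refine ⟨N', fun h3 => hN (hN' ▸ Dvd.dvd.mul_left h3 _), hodd, ?_⟩
    have h3 := kill (F := F) N' (by rintro rfl; exact absurd hodd (by decide)) (2 ^ b) 1
      (fun k' _ _ hk' hd' => by
        rw [pow_one]
        exact h2 k' hk' (by rwa [hN'])) k hk ((pow_dvd_pow 2 hb).trans hd)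
    rwa [one_mul] at h3
  by_contra hne
  have h2 : orderOf (F.v k) ≠ 1 := fun h3 => hne (orderOf_eq_one_iff.mp h3)
  have hp := Nat.minFac_prime h2
  rcases eq_or_ne (orderOf (F.v k)).minFac 2 with h3 | h3
  · obtain ⟨N, -, hodd, h4⟩ := h1 3 Nat.prime_three (by norm_num)
    have h5 := (Nat.minFac_dvd (orderOf (F.v k))).trans (orderOf_dvd_of_pow_eq_one h4)
    rw [h3] at h5
    exact (Nat.not_even_iff_odd.mpr hodd) (even_iff_two_dvd.mpr h5)
  · obtain ⟨N, hN, -, h4⟩ := h1 _ hp h3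
    exact hN ((Nat.minFac_dvd _).trans (orderOf_dvd_of_pow_eq_one h4))

end Pool.Agent.K9h67.EW
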