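import Mathlib
import Pool.Agent.K9h67.EW.Sp
import Pool.Agent.K9h67.EW.Two

/-!
# Ratios of critical values: base changes of degrees prime to each odd prime number
-/

set_option autoImplicit false
set_option linter.unusedSectionVars false

open NumberField IntermediateField IsDedekindDomain Filter Topology Pool.Agent.R389
  Pool.Agent.K4H74.ST Pool.Agent.K4H74.SC Pool.Agent.K9h86.RT

namespace Pool.Agent.K9h67.EW

open Pool.Agent.K9h67.EV

theorem main_bm {F : Type} [Field F] [NumberField F] {E : Type} [Field E] [NumberField E]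
    (M : MotiveOver F E) {m : ℤ} (hm : IsCritical M m) (hm' : IsCritical M (m + 1))
    (a : ℕ) (S : Finset ℕ) (hS : ∀ L : IntermediateField ℚ F, TestField S L → L = ⊥)
    (hD : ∀ l : ℕ, l.Prime → l ≠ 2 → ∃ N : ℕ, ¬ l ∣ N ∧ ¬ 2 ^ (a + 1) ∣ N ∧
      ∀ (k : Type) [Field k] [NumberField k] [Algebra F k], IsTestExtension S F k →
        N ∣ Module.finrank F k → RatioEquality M k m) :
    (∀ (k : Type) [Field k] [NumberField k] [Algebra F k], IsTestExtension S F k →
      2 ^ a ∣ Module.finrank F k → RatioEquality M k m) ∧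
    (∀ (k₁ : Type) [Field k₁] [NumberField k₁] [Algebra F k₁], IsTestExtension S F k₁ →
      Odd (Module.finrank F k₁) → RatioEquality M k₁ m →
        ∀ (k : Type) [Field k] [NumberField k] [Algebra F k], IsTestExtension S F k →
          RatioEquality M k m) ∧
    ((∀ ι : E →+* ℂ, ∃ f : ℂ → ℂ, IsL M ι F f) →
      ∃ (x : E) (R : (E →+* ℂ) → ℂ) (δ : ℂ), x ≠ 0 ∧ IsDelta F δ ∧
        (∀ ι, HasRatio M ι F m (R ι) ∧ R ι ^ 2 ^ a
          = ι x * ((Complex.I ^ (Module.finrank ℚ F / 2) * δ) ^ M.n) ^ 2 ^ a) ∧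
        ∀ (k : Type) [Field k] [NumberField k] [Algebra F k], IsTestExtension S F k →
          ∃ e : E, e ≠ 0 ∧ ∀ ι : E →+* ℂ, HasRatio M ι k m (ι e * R ι ^ Module.finrank F k)) := by
  have h0 : ∀ (k : Type) [Field k] [NumberField k] [Algebra F k], IsTestExtension S F k →
      2 ^ a ∣ Module.finrank F k → RatioEquality M k m := by
    intro k _ _ _ hk hd
    obtain ⟨k₀, _, _, hk₀, hc⟩ := hk
    have h1 : (VW M m hS).v k₀ = 1 := by
      refine all_two (F := VW M m hS) a (fun l hl hl2 => ?_) k₀ hk₀ ?_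
      · obtain ⟨N, hN, hN2, h2⟩ := hD l hl hl2
        refine ⟨N, hN, hN2, fun k' _ _ hk' hd' => ?_⟩
        obtain ⟨k'', _, _, _, hk''⟩ := exists_isComp hS k' hk'
        have h3 : (VW M m hS).v k' = RR M m k'' := vv_eq hk''
        rw [h3]
        refine RR_of_ratio hm hm' (h2 k'' ⟨k', inferInstance, inferInstance, hk', hk''⟩ ?_)
        obtain ⟨-, h4, -⟩ := hk''
        rwa [← h4]
      · obtain ⟨-, h4, -⟩ := hc
        rwa [h4]
    have h2 : (VW M m hS).v k₀ = RR M m k := vv_eq hc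
    exact ratio_of_RR hm hm' (h2.symm.trans h1)
  exact ⟨h0, main_ew M hm hm' a S hS h0⟩

end Pool.Agent.K9h67.EW
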