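import Mathlib
import Pool.Agent.K9h67.EV.Fin
import Pool.Agent.K9h67.EW.Two

/-!
# Deligne's conjecture and test fields of degrees prime to each odd prime number
-/

set_option autoImplicit false
set_option linter.unusedSectionVars false

open NumberField NumberField.InfinitePlace IntermediateField Filter Topology
  Pool.Agent.R389 Pool.Agent.K4H74.ST Pool.Agent.K4H74.SC Pool.Agent.K9h41.DC

namespace Pool.Agent.K9h67.EW

open Pool.Agent.K9h67.EV

/-- the restriction of a function of all number fields -/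
def toS {A : Type} [CommGroup A] (F : EV.ArtinFn A) (S : Finset ℕ) : ArtinFn S A where
  v k := F.v k
  iso k k' _ _ _ _ e := F.iso k k' e
  rel K _ _ _ _ _ V c h := F.rel K V c h

theorem main_dm {E : Type} [Field E] [NumberField E] (D : MotiveData E) (m : ℤ) (a : ℕ)
    (S : Finset ℕ)
    (hD : ∀ l : ℕ, l.Prime → l ≠ 2 → ∃ N : ℕ, ¬ l ∣ N ∧ ¬ 2 ^ (a + 1) ∣ N ∧
      ∀ (F : Type) [Field F] [NumberField F], TestField S F → N ∣ Module.finrank ℚ F →
        (∃ e : E, DeligneWith D F m e) ∧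
        ((m : ℝ) ≤ 1 + (D.w : ℝ) / 2 → ∃ ι : E →+* ℂ, ¬ HasLValue D ι F m 0)) :
    (∀ (k : Type) [Field k] [NumberField k], TestField S k → 2 ^ a ∣ Module.finrank ℚ k →
      ∃ e : E, e ≠ 0 ∧ DeligneWith D k m e) ∧
    (∀ (k₀ : Type) [Field k₀] [NumberField k₀], TestField S k₀ → Odd (Module.finrank ℚ k₀) →
      (∃ e : E, DeligneWith D k₀ m e) →
      ((m : ℝ) ≤ 1 + (D.w : ℝ) / 2 → ∃ ι : E →+* ℂ, ¬ HasLValue D ι k₀ m 0) →
        ∀ (k : Type) [Field k] [NumberField k], TestField S k →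
          ∃ e : E, e ≠ 0 ∧ DeligneWith D k m e) ∧
    ((∀ ι : E →+* ℂ, ∃ f : ℂ → ℂ, (∀ s : ℂ, (m : ℝ) ≤ s.re → MeromorphicAt f s) ∧
        ∀ s : ℂ, 1 + (D.w : ℝ) / 2 < s.re → HasProd (fun v => eulerFactor D ι ℚ v s) (f s)) →
      ∃ (δ : E) (z : (E →+* ℂ) → ℂ), δ ≠ 0 ∧
        (∀ ι, HasLValue D ι ℚ m (z ι) ∧ z ι ^ 2 ^ a
          = ι δ * ((2 * Real.pi * Complex.I) ^ (m * D.n) * D.period ι m) ^ 2 ^ a) ∧
        ∀ (k : Type) [Field k] [NumberField k], TestField S k →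
          ∃ (e : E) (d : ℂ), e ≠ 0 ∧ d ^ 2 = (discr k : ℂ) ∧ ∀ ι : E →+* ℂ,
            HasLValue D ι k m (ι e * z ι ^ Module.finrank ℚ k * d ^ D.n)) := by
  have hV0 : ∀ (F : Type) [Field F] [NumberField F], TestField S F →
      2 ^ a ∣ Module.finrank ℚ F → (VF D m).v F = 1 := by
    intro F _ _ hF hd
    refine all_two (F := toS (VF D m) S) a (fun l hl hl2 => ?_) F hF hd
    obtain ⟨N, hN, hN2, h2⟩ := hD l hl hl2
    refine ⟨N, hN, hN2, fun k _ _ hk hd' => ?_⟩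
    have := hk.1
    obtain ⟨h3, h4⟩ := h2 k hk hd'
    obtain ⟨e, he, he'⟩ := exists_ne D m k h3 h4
    exact VV_of_deligne k he he'
  refine ⟨fun k _ _ hk hd => ?_, ?_⟩
  · have := hk.1
    exact deligne_of_VV k (hV0 k hk hd)
  have hV := hV0
  obtain ⟨h1, h2⟩ := abs_two a hV
  constructor
  · intro k₀ _ _ hk₀ hodd hex hex' k _ _ hk
    have := hk₀.1
    have := hk.1
    obtain ⟨e, he, he'⟩ := exists_ne D m k₀ hex hex'
    have h3 : (VF D m).v k₀ = 1 := VV_of_deligne k₀ he he'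
    rw [h2 k₀ hk₀] at h3
    have h4 : (VF D m).v ℚ = 1 := by
      have h5 : orderOf ((VF D m).v ℚ) ∣ 2 ^ a := orderOf_dvd_of_pow_eq_one h1
      have h6 : orderOf ((VF D m).v ℚ) ∣ Module.finrank ℚ k₀ := orderOf_dvd_of_pow_eq_one h3
      have h7 : (2 ^ a).Coprime (Module.finrank ℚ k₀) := (Nat.coprime_two_left.mpr hodd).pow_left a
      exact orderOf_eq_one_iff.mp (Nat.eq_one_of_dvd_coprimes h7 h5 h6)
    refine deligne_of_VV k ?_
    have h5 := h2 k hk
    rw [h4, one_pow] at h5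
    exact h5
  · intro hM
    obtain ⟨δ, r, hδ, hr, hr'⟩ := root_of (pow_ne_zero a two_ne_zero) hM h1
    -- the square root of the discriminant of `ℚ`
    obtain ⟨u, hu, hu'⟩ := sq_ratio (δ := sd ℚ) (δ' := 1) (by
      rw [sd_sq, Rat.numberField_discr]
      norm_num)
    rw [mul_one] at hu'
    have hnr : ∀ ι : E →+* ℂ, nr D m ι 1 (sd ℚ)
        = (u : ℂ) ^ D.n * ((2 * Real.pi * Complex.I) ^ (m * D.n) * D.period ι m) := by
      intro ι
      rw [nr, hu', mul_one, pow_one]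
      ring
    have huE : ((u : ℚ) : E) ≠ 0 := by exact_mod_cast hu
    refine ⟨δ * ((u : E) ^ D.n) ^ 2 ^ a, fun ι => r ι * nr D m ι 1 (sd ℚ),
      mul_ne_zero hδ (pow_ne_zero _ (pow_ne_zero _ huE)), fun ι => ⟨hr' ι, ?_⟩,
      fun k _ _ hk => ?_⟩
    · change (r ι * nr D m ι 1 (sd ℚ)) ^ 2 ^ a = _
      rw [mul_pow, hr, hnr, mul_pow, map_mul, map_pow, map_pow, map_ratCast]
      ring
    · have := hk.1
      obtain ⟨e, d, he, hd, h3⟩ := value_of (D := D) (m := m) k rfl (h2 k hk) hr'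
      refine ⟨e * (((u : E) ^ D.n) ^ Module.finrank ℚ k)⁻¹, d,
        mul_ne_zero he (inv_ne_zero (pow_ne_zero _ (pow_ne_zero _ huE))), hd, fun ι => ?_⟩
      convert h3 ι using 1
      beta_reduce
      have huC : (u : ℂ) ≠ 0 := by exact_mod_cast hu
      rw [hnr, map_mul, map_inv₀, map_pow, map_pow, map_ratCast, nr]
      have h4 : ((2 * Real.pi * Complex.I : ℂ)) ^ (m * (D.n * Module.finrank ℚ k : ℕ))
          = ((2 * Real.pi * Complex.I) ^ (m * D.n)) ^ Module.finrank ℚ k := by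
        rw [← zpow_natCast, ← zpow_mul]
        congr 1
        push_cast
        ring
      rw [h4]
      have h5 : ((u : ℂ) ^ D.n) ^ Module.finrank ℚ k ≠ 0 := pow_ne_zero _ (pow_ne_zero _ huC)
      rw [mul_pow, mul_pow, mul_pow]
      field_simp

end Pool.Agent.K9h67.EW
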